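import Pool.Agent.U30.BP.Defs

/-!
# Closures; the stable directions of a family of a special shape
-/

namespace Pool.Agent.U30.BP

/-- A set which is closed under the rules. -/
def ClosedU (U : Family) (B : Set (ℤ × ℤ)) : Prop := ∀ R ∈ U, ∀ x, (∀ v ∈ R, x + v ∈ B) → x ∈ B

theorem stepSet_mono {U : Family} {A B : Set (ℤ × ℤ)} (h : A ⊆ B) : stepSet U A ⊆ stepSet U B := by
  rintro x (hx | ⟨R, hR, hx⟩)
  · exact Or.inl (h hx)
  · exact Or.inr ⟨R, hR, fun v hv => h (hx v hv)⟩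

theorem subset_stepSet (U : Family) (A : Set (ℤ × ℤ)) : A ⊆ stepSet U A := fun _ hx => Or.inl hx

theorem iter_mono (U : Family) (A : Set (ℤ × ℤ)) {s t : ℕ} (h : s ≤ t) :
    (stepSet U)^[s] A ⊆ (stepSet U)^[t] A := by
  induction h with
  | refl => exact le_rfl
  | @step t _ ih =>
    rw [Function.iterate_succ_apply']
    exact ih.trans (subset_stepSet U _)

theorem subset_cl (U : Family) (A : Set (ℤ × ℤ)) : A ⊆ cl U A := fun _ hx =>
  Set.mem_iUnion.2 ⟨0, hx⟩

theorem closed_cl (U : Family) (A : Set (ℤ × ℤ)) : ClosedU U (cl U A) := by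
  intro R hR x hx
  have h : ∃ t, ∀ v ∈ R, x + v ∈ (stepSet U)^[t] A := by
    clear hR
    induction R with
    | nil => exact ⟨0, by simp⟩
    | cons v R ih =>
      obtain ⟨t, ht⟩ := ih fun w hw => hx w (List.mem_cons_of_mem _ hw)
      obtain ⟨s, hs⟩ := Set.mem_iUnion.1 (hx v List.mem_cons_self)
      refine ⟨max s t, fun w hw => ?_⟩
      rcases List.mem_cons.1 hw with rfl | hw
      · exact iter_mono U A (le_max_left _ _) hs
      · exact iter_mono U A (le_max_right _ _) (ht w hw)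
  obtain ⟨t, ht⟩ := h
  refine Set.mem_iUnion.2 ⟨t + 1, ?_⟩
  rw [Function.iterate_succ_apply']
  exact Or.inr ⟨R, hR, ht⟩

theorem cl_min {U : Family} {A B : Set (ℤ × ℤ)} (h : A ⊆ B) (hB : ClosedU U B) : cl U A ⊆ B := by
  intro x hx
  obtain ⟨t, ht⟩ := Set.mem_iUnion.1 hx
  have key : ∀ t, (stepSet U)^[t] A ⊆ B := by
    intro t
    induction t with
    | zero => exact h
    | succ t ih =>
      rw [Function.iterate_succ_apply']
      rintro y (hy | ⟨R, hR, hy⟩)
      · exact ih hy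
      · exact hB R hR y fun v hv => ih (hy v hv)
  exact key t ht

theorem cl_eq_self {U : Family} {A : Set (ℤ × ℤ)} : cl U A = A ↔ ClosedU U A := by
  constructor
  · intro h
    have := closed_cl U A
    rwa [h] at this
  · intro h
    exact (cl_min le_rfl h).antisymm (subset_cl U A)

/-- The shape of the families of the reduction. -/
structure Shape (U : Family) : Prop where
  down : ∀ R ∈ U, ((0, -1) : ℤ × ℤ) ∈ R
  up : ∀ R ∈ U, ∃ v ∈ R, 0 ≤ v.2
  gr : ∃ R ∈ U, ∀ v ∈ R, v = (0, -1) ∨ v = (-1, 0) ∨ v = (-2, 0)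
  gl : ∃ R ∈ U, ∀ v ∈ R, v = (0, -1) ∨ v = (1, 0) ∨ v = (2, 0)

theorem top_mem_S1 : ((0, 1) : ℝ × ℝ) ∈ S1 := by simp [S1]

theorem half_top : half (0, 1) = {x | x.2 < 0} := by
  ext x
  simp [half]

theorem closed_half_down {U : Family} (hU : Shape U) {u : ℝ × ℝ} (hu : u.2 ≤ 0) :
    ClosedU U (half u) := by
  intro R hR x hx
  have h := hx _ (hU.down R hR)
  simp only [half, Set.mem_ofPred_eq, Prod.fst_add, Prod.snd_add, add_zero, Int.cast_add,
    Int.cast_neg, Int.cast_one] at h ⊢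
  nlinarith

theorem closed_half_top {U : Family} (hU : Shape U) : ClosedU U (half (0, 1)) := by
  intro R hR x hx
  obtain ⟨v, hv, hv2⟩ := hU.up R hR
  have h := hx v hv
  rw [half_top] at h ⊢
  simp only [Set.mem_ofPred_eq, Prod.snd_add] at h ⊢
  omega

theorem not_closed_half {U : Family} (hU : Shape U) {u : ℝ × ℝ} (hu : 0 < u.2) (hu1 : u.1 ≠ 0) :
    ¬ ClosedU U (half u) := by
  intro hc
  have h0 : ((0, 0) : ℤ × ℤ) ∉ half u := by simp [half]
  rcases lt_or_gt_of_ne hu1 with h | h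
  · obtain ⟨R, hR, hv⟩ := hU.gl
    refine h0 (hc R hR (0, 0) fun v hvR => ?_)
    rcases hv v hvR with rfl | rfl | rfl
    · simp [half]; linarith
    · simp [half]; linarith
    · simp [half]; linarith
  · obtain ⟨R, hR, hv⟩ := hU.gr
    refine h0 (hc R hR (0, 0) fun v hvR => ?_)
    rcases hv v hvR with rfl | rfl | rfl
    · simp [half]; linarith
    · simp [half]; linarith
    · simp [half]; linarith

theorem stab_shape {U : Family} (hU : Shape U) {u : ℝ × ℝ} :
    u ∈ stab U ↔ u ∈ S1 ∧ (u.2 ≤ 0 ∨ u = (0, 1)) := by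
  unfold stab
  simp only [Set.mem_ofPred_eq, cl_eq_self]
  constructor
  · rintro ⟨h1, h2⟩
    refine ⟨h1, ?_⟩
    by_contra hcon
    push Not at hcon
    obtain ⟨h3, h4⟩ := hcon
    refine not_closed_half hU h3 ?_ h2
    intro h5
    have h6 : u.1 ^ 2 + u.2 ^ 2 = 1 := h1
    rw [h5] at h6
    have h7 : u.2 = 1 := by nlinarith
    exact h4 (Prod.ext h5 h7)
  · rintro ⟨h1, h2 | rfl⟩
    · exact ⟨h1, closed_half_down hU h2⟩
    · exact ⟨h1, closed_half_top hU⟩

theorem critical_shape {U : Family} (hU : Shape U) : Critical U := by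
  constructor
  · refine ⟨(0, 1), top_mem_S1, Set.Finite.subset (Set.finite_singleton ((0, 1) : ℝ × ℝ)) ?_⟩
    rintro u ⟨h1, _, h2⟩
    rw [stab_shape hU] at h1
    simp only [mul_zero, mul_one, zero_add] at h2
    rcases h1.2 with h | h
    · linarith
    · exact h
  · intro c hc
    have hc' : c.1 ^ 2 + c.2 ^ 2 = 1 := hc
    rcases le_or_gt c.2 0 with h | h
    · refine ⟨c, (stab_shape hU).2 ⟨hc, Or.inl h⟩, hc, ?_⟩
      nlinarith
    · rcases lt_trichotomy c.1 0 with h1 | h1 | h1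
      · have h2 : ((-1, 0) : ℝ × ℝ) ∈ S1 := by simp [S1]
        refine ⟨(-1, 0), (stab_shape hU).2 ⟨h2, Or.inl le_rfl⟩, h2, ?_⟩
        simp only [neg_mul, one_mul, zero_mul, add_zero]
        linarith
      · refine ⟨(0, 1), (stab_shape hU).2 ⟨top_mem_S1, Or.inr rfl⟩, top_mem_S1, ?_⟩
        simpa using h
      · have h2 : ((1, 0) : ℝ × ℝ) ∈ S1 := by simp [S1]
        refine ⟨(1, 0), (stab_shape hU).2 ⟨h2, Or.inl le_rfl⟩, h2, ?_⟩
        simp only [one_mul, zero_mul, add_zero]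
        linarith

/-- The lower half circle consists of stable directions which are not isolated. -/
theorem not_isolated {U : Family} (hU : Shape U) {u : ℝ × ℝ} (hu : u ∈ S1) (h2 : u.2 ≤ 0) :
    ¬ Isolated U u := by
  rintro ⟨_, ε, hε, h⟩
  have hu' : u.1 ^ 2 + u.2 ^ 2 = 1 := hu
  -- the direction of `u + (0, -s)` or a rotation
  obtain ⟨θ, hθ0, hθ1, hθ2⟩ : ∃ θ : ℝ, 0 < θ ∧ θ < 1 ∧ 2 * θ < ε := by
    refine ⟨min (1 / 2) (ε / 4), by positivity, ?_, ?_⟩
    · exact lt_of_le_of_lt (min_le_left _ _) (by norm_num)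
    · have := min_le_right (1 / 2) (ε / 4)
      linarith
  have hs0 : 0 < Real.sin θ := Real.sin_pos_of_pos_of_lt_pi hθ0 (by linarith [Real.pi_gt_three])
  have hs1 : Real.sin θ < θ := Real.sin_lt hθ0
  have hc0 : 0 < Real.cos θ := Real.cos_pos_of_mem_Ioo ⟨by linarith [Real.pi_gt_three],
    by linarith [Real.pi_gt_three]⟩
  have hc1 : 1 - Real.cos θ ≤ θ := by
    have h3 := Real.one_sub_sq_div_two_le_cos (x := θ)
    nlinarith
  have hc2 : Real.cos θ ≤ 1 := Real.cos_le_one θ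
  have hsc := Real.sin_sq_add_cos_sq θ
  have ha : |u.1| ≤ 1 := abs_le_one_iff_mul_self_le_one.2 (by nlinarith)
  have hb : |u.2| ≤ 1 := abs_le_one_iff_mul_self_le_one.2 (by nlinarith)
  obtain ⟨ha1, ha2⟩ := abs_le.1 ha
  obtain ⟨hb1, hb2⟩ := abs_le.1 hb
  have key : ∀ s : ℝ, (s = Real.sin θ ∨ s = -Real.sin θ) → u.1 * s ≤ 0 → False := by
    intro s hs hus
    have hss : s ^ 2 + Real.cos θ ^ 2 = 1 := by
      rcases hs with rfl | rfl
      · exact hsc
      · rw [neg_sq]; exact hsc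
    have hsne : s ≠ 0 := by
      rcases hs with rfl | rfl
      · exact hs0.ne'
      · exact (neg_neg_of_pos hs0).ne
    have hsabs : |s| < θ := by
      rcases hs with rfl | rfl
      · rwa [abs_of_pos hs0]
      · rwa [abs_neg, abs_of_pos hs0]
    have hv : ((u.1 * Real.cos θ - u.2 * s, u.1 * s + u.2 * Real.cos θ) : ℝ × ℝ) ∈ stab U := by
      rw [stab_shape hU]
      refine ⟨?_, Or.inl ?_⟩
      · show (u.1 * Real.cos θ - u.2 * s) ^ 2 + (u.1 * s + u.2 * Real.cos θ) ^ 2 = 1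
        have : (u.1 * Real.cos θ - u.2 * s) ^ 2 + (u.1 * s + u.2 * Real.cos θ) ^ 2 =
          (u.1 ^ 2 + u.2 ^ 2) * (s ^ 2 + Real.cos θ ^ 2) := by ring
        rw [this, hu', hss, one_mul]
      · show u.1 * s + u.2 * Real.cos θ ≤ 0
        nlinarith
    have habs : ∀ a b : ℝ, |a| ≤ 1 → |b| ≤ 1 → |a * Real.cos θ - b * s - a| < ε := by
      intro a b ha hb
      have e : a * Real.cos θ - b * s - a = -(a * (1 - Real.cos θ)) + -(b * s) := by ring
      rw [e]
      refine lt_of_le_of_lt (abs_add_le _ _) ?_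
      rw [abs_neg, abs_neg, abs_mul, abs_mul]
      have h5 : |1 - Real.cos θ| ≤ θ := by rw [abs_of_nonneg (by linarith)]; exact hc1
      have h6 := mul_le_mul ha h5 (abs_nonneg _) zero_le_one
      have h7 := mul_le_mul hb hsabs.le (abs_nonneg _) zero_le_one
      linarith
    have hd : dist ((u.1 * Real.cos θ - u.2 * s, u.1 * s + u.2 * Real.cos θ) : ℝ × ℝ) u < ε := by
      rw [Prod.dist_eq, max_lt_iff, Real.dist_eq, Real.dist_eq]
      refine ⟨habs u.1 u.2 ha hb, ?_⟩
      have h12 := habs u.2 (-u.1) hb (by rwa [abs_neg])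
      have e : u.1 * s + u.2 * Real.cos θ - u.2 = u.2 * Real.cos θ - -u.1 * s - u.2 := by ring
      rw [e]
      exact h12
    have h8 := h _ hv hd
    have h9 : u.1 * Real.cos θ - u.2 * s = u.1 := congrArg Prod.fst h8
    have h10 : u.1 * s + u.2 * Real.cos θ = u.2 := congrArg Prod.snd h8
    have h11 : s * (u.1 ^ 2 + u.2 ^ 2) = 0 := by
      have e1 : u.2 * s = u.1 * Real.cos θ - u.1 := by linarith
      have e2 : u.1 * s = u.2 - u.2 * Real.cos θ := by linarith
      calc s * (u.1 ^ 2 + u.2 ^ 2) = u.1 * (u.1 * s) + u.2 * (u.2 * s) := by ring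
        _ = u.1 * (u.2 - u.2 * Real.cos θ) + u.2 * (u.1 * Real.cos θ - u.1) := by rw [e1, e2]
        _ = 0 := by ring
    rw [hu', mul_one] at h11
    exact hsne h11
  rcases le_or_gt u.1 0 with h4 | h4
  · exact key _ (Or.inl rfl) (mul_nonpos_of_nonpos_of_nonneg h4 hs0.le)
  · refine key _ (Or.inr rfl) ?_
    have := mul_pos h4 hs0
    linarith

theorem isolated_top {U : Family} (hU : Shape U) : Isolated U (0, 1) := by
  refine ⟨(stab_shape hU).2 ⟨top_mem_S1, Or.inr rfl⟩, 1, one_pos, ?_⟩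
  intro v hv hd
  rcases ((stab_shape hU).1 hv).2 with h | h
  · rw [Prod.dist_eq, max_lt_iff, Real.dist_eq, Real.dist_eq, abs_lt, abs_lt] at hd
    simp only at hd
    linarith [hd.2.1]
  · exact h

/-- The difficulty of a family of this shape is that of the direction `(0, 1)`. -/
theorem diff_shape {U : Family} (hU : Shape U) : diff U =
    ⨅ Z ∈ {Z : Set (ℤ × ℤ) | Disjoint Z {x | x.2 < 0} ∧
      (cl U ({x | x.2 < 0} ∪ Z) \ {x | x.2 < 0}).Infinite}, Z.encard := by
  have h1 : diffDir U (0, 1) = ⨅ Z ∈ {Z : Set (ℤ × ℤ) | Disjoint Z {x | x.2 < 0} ∧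
      (cl U ({x | x.2 < 0} ∪ Z) \ {x | x.2 < 0}).Infinite}, Z.encard := by
    have h2 := isolated_top hU
    unfold diffDir
    rw [if_neg (not_not.2 h2.1), if_pos h2, half_top]
  rw [← h1]
  refine le_antisymm ?_ ?_
  · refine (iInf₂_le ((0, 1) : ℝ × ℝ) top_mem_S1).trans ?_
    refine iSup₂_le ?_
    rintro u ⟨hu1, hu2⟩
    simp only [mul_zero, mul_one, zero_add] at hu2
    by_cases hu3 : u = (0, 1)
    · rw [hu3]
    · have hns : u ∉ stab U := by
        rw [stab_shape hU]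
        rintro ⟨_, h | h⟩
        · linarith
        · exact hu3 h
      unfold diffDir
      rw [if_pos hns]
      exact zero_le
  · refine le_iInf₂ ?_
    intro c hc
    by_cases hc1 : c = (0, 1)
    · refine le_iSup₂_of_le (0, 1) ⟨top_mem_S1, ?_⟩ le_rfl
      rw [hc1]
      norm_num
    · -- a stable direction in the lower half circle
      have hc' : c.1 ^ 2 + c.2 ^ 2 = 1 := hc
      obtain ⟨u, hu1, hu2, hu3⟩ : ∃ u ∈ S1, u ∈ semi c ∧ u.2 ≤ 0 := by
        rcases le_or_gt c.2 0 with h | h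
        · refine ⟨c, hc, ⟨hc, ?_⟩, h⟩
          nlinarith
        · rcases lt_trichotomy c.1 0 with h1 | h1 | h1
          · have h2 : ((-1, 0) : ℝ × ℝ) ∈ S1 := by simp [S1]
            refine ⟨(-1, 0), h2, ⟨h2, ?_⟩, le_rfl⟩
            simp only [neg_mul, one_mul, zero_mul, add_zero]
            linarith
          · exfalso
            rw [h1] at hc'
            exact hc1 (Prod.ext h1 (by nlinarith))
          · have h2 : ((1, 0) : ℝ × ℝ) ∈ S1 := by simp [S1]
            refine ⟨(1, 0), h2, ⟨h2, ?_⟩, le_rfl⟩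
            simp only [one_mul, zero_mul, add_zero]
            linarith
      refine le_iSup₂_of_le u hu2 ?_
      have hst : u ∈ stab U := (stab_shape hU).2 ⟨hu1, Or.inl hu3⟩
      have : diffDir U u = ⊤ := by
        unfold diffDir
        rw [if_neg (not_not.2 hst), if_neg (not_isolated hU hu1 hu3)]
      rw [this]
      exact le_top

theorem diff_le_one_iff {U : Family} (hU : Shape U) : diff U ≤ 1 ↔
    ∃ Z : Set (ℤ × ℤ), Disjoint Z {x | x.2 < 0} ∧
      (cl U ({x | x.2 < 0} ∪ Z) \ {x | x.2 < 0}).Infinite ∧ Z.encard ≤ 1 := by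
  rw [diff_shape hU]
  constructor
  · intro h
    have h1 : (⨅ Z ∈ {Z : Set (ℤ × ℤ) | Disjoint Z {x | x.2 < 0} ∧
      (cl U ({x | x.2 < 0} ∪ Z) \ {x | x.2 < 0}).Infinite}, Z.encard) < 2 :=
      lt_of_le_of_lt h (by norm_num)
    simp only [iInf_lt_iff, Set.mem_ofPred_eq] at h1
    obtain ⟨Z, ⟨h2, h3⟩, h4⟩ := h1
    refine ⟨Z, h2, h3, ?_⟩
    exact Order.le_of_lt_add_one (by rwa [show (1 : ℕ∞) + 1 = 2 from by norm_num])
  · rintro ⟨Z, h1, h2, h3⟩
    exact (iInf₂_le Z ⟨h1, h2⟩).trans h3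

end Pool.Agent.U30.BP
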