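import Pool.Agent.H623R2.PS.Defs

/-!
# Two-dimensional bootstrap percolation: update families, stable directions, difficulty

The last definition is that of the class `EXPSPACE`.
-/

namespace Pool.Agent.U30.BP

open Pool.Agent.NPC

/-- An update family: a list of rules; a rule is a list of points of `ℤ²`. -/
abbrev Family : Type := List (List (ℤ × ℤ))

/-- A finite nonempty collection of finite nonempty subsets of `ℤ² ∖ {0}`, every set being given
without repetitions. -/
def IsFamily (U : Family) : Prop :=
  U ≠ [] ∧ U.Nodup ∧ ∀ R ∈ U, R ≠ [] ∧ R.Nodup ∧ (0, 0) ∉ R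

/-- One step of the process: `A_{t+1} = A_t ∪ {x : x + R ⊆ A_t for some rule R}`. -/
def stepSet (U : Family) (A : Set (ℤ × ℤ)) : Set (ℤ × ℤ) :=
  A ∪ {x | ∃ R ∈ U, ∀ v ∈ R, x + v ∈ A}

/-- The closure `[A] = ⋃ t, A_t`, with `A_0 = A`. -/
def cl (U : Family) (A : Set (ℤ × ℤ)) : Set (ℤ × ℤ) := ⋃ t : ℕ, (stepSet U)^[t] A

/-- The directions: the unit circle `S¹`, as a subset of `ℝ²`. -/
def S1 : Set (ℝ × ℝ) := {u | u.1 ^ 2 + u.2 ^ 2 = 1}

/-- The open half plane `H_u = {x ∈ ℤ² : ⟨x, u⟩ < 0}`. -/
def half (u : ℝ × ℝ) : Set (ℤ × ℤ) := {x | (x.1 : ℝ) * u.1 + (x.2 : ℝ) * u.2 < 0}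

/-- The open semicircle with midpoint `c ∈ S¹`. -/
def semi (c : ℝ × ℝ) : Set (ℝ × ℝ) := {u | u ∈ S1 ∧ 0 < u.1 * c.1 + u.2 * c.2}

/-- The stable directions. -/
def stab (U : Family) : Set (ℝ × ℝ) := {u | u ∈ S1 ∧ cl U (half u) = half u}

/-- `U` is critical: some open semicircle contains only finitely many stable directions, and every
open semicircle contains a stable direction. -/
def Critical (U : Family) : Prop :=
  (∃ c ∈ S1, (stab U ∩ semi c).Finite) ∧ ∀ c ∈ S1, (stab U ∩ semi c).Nonempty

/-- An isolated stable direction. -/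
def Isolated (U : Family) (u : ℝ × ℝ) : Prop :=
  u ∈ stab U ∧ ∃ ε > 0, ∀ v ∈ stab U, dist v u < ε → v = u

open Classical in
/-- The difficulty of a direction `u`: `0` if `u` is unstable, `∞` if `u` is a stable direction
which is not isolated; if `u` is an isolated stable direction, the least cardinality of a set
`Z ⊆ ℤ² ∖ H_u` such that `[H_u ∪ Z] ∖ H_u` is infinite. -/
noncomputable def diffDir (U : Family) (u : ℝ × ℝ) : ℕ∞ :=
  if u ∉ stab U then 0
  else if Isolated U u then
    ⨅ Z ∈ {Z : Set (ℤ × ℤ) | Disjoint Z (half u) ∧ (cl U (half u ∪ Z) \ half u).Infinite}, Z.encard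
  else ⊤

/-- The difficulty of an update family: the infimum over the open semicircles `C` of the supremum
over `u ∈ C` of the difficulties of the directions `u`. -/
noncomputable def diff (U : Family) : ℕ∞ := ⨅ c ∈ S1, ⨆ u ∈ semi c, diffDir U u

/-- The class `EXPSPACE`: some Turing machine decides `L` (it halts on every input `x`, with output
`true` if `x ∈ L` and `false` otherwise), and for some polynomial `p` no configuration reached from
the input `x` uses more than `2 ^ p |x|` space. -/
def InEXPSPACE (L : Set (List Bool)) : Prop :=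
  ∃ (f : List Bool → Bool)
    (M : Turing.TM2Computable (id : List Bool → List Bool) (fun b : Bool => [b]) f)
    (p : Polynomial ℕ), (∀ x, x ∈ L ↔ f x = true) ∧
      ∀ (x : List Bool) (c : M.tm.Cfg),
        StateTransition.Reaches M.tm.step
          (Turing.initList M.tm (x.map M.inputAlphabet.invFun)) c →
        Pool.Agent.H623R2.PS.space c ≤ 2 ^ p.eval x.length

end Pool.Agent.U30.BP
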