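import Pool.Agent.U30.BP.ES
import Pool.Agent.H660R2.NX.UnivSet

/-!
# A language in `EXPSPACE` which is not in `NP`
-/

namespace Pool.Agent.U30.BP

open Turing Pool.Agent.NPC Pool.Agent.H623R2.PS Pool.Agent.H660R2.NX

attribute [local irreducible] unpair

/-! ### Counting -/

/-- One step of the increment of a binary number (the head is the most significant digit; the flag
is the carry). -/
def istep (b : Bool) (s : Bool × List Bool) : Bool × List Bool :=
  (s.1 && b, (xor b s.1) :: s.2)

/-- The increment of a binary number, with the carry. -/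
def inc (l : List Bool) : Bool × List Bool := l.foldr istep (true, [])

/-- The value of a binary number. -/
def vb : List Bool → ℕ
  | [] => 0
  | b :: l => (if b then 2 ^ l.length else 0) + vb l

theorem vb_lt : ∀ l : List Bool, vb l < 2 ^ l.length
  | [] => by simp [vb]
  | b :: l => by
    have := vb_lt l
    rw [vb, List.length_cons, pow_succ]
    split_ifs <;> omega

theorem vb_inj : ∀ {l l' : List Bool}, l.length = l'.length → vb l = vb l' → l = l'
  | [], [], _, _ => rfl
  | [], _ :: _, h, _ => by simp at h
  | _ :: _, [], h, _ => by simp at h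
  | b :: l, b' :: l', h, hv => by
    have h1 : l.length = l'.length := by simpa using h
    have h2 := vb_lt l
    have h3 := vb_lt l'
    rw [vb, vb, h1] at hv
    rw [h1] at h2
    have hb : b = b' := by
      cases b <;> cases b' <;> simp at hv ⊢ <;> omega
    subst hb
    have hv' : vb l = vb l' := by omega
    rw [vb_inj h1 hv']

theorem vb_replicate : ∀ n, vb (List.replicate n false) = 0
  | 0 => rfl
  | n + 1 => by rw [List.replicate_succ, vb, vb_replicate n]; simp

theorem inc_length (l : List Bool) : (inc l).2.length = l.length := by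
  induction l with
  | nil => rfl
  | cons b l ih =>
    show (istep b (inc l)).2.length = _
    simp [istep, ih]

theorem inc_spec (l : List Bool) : ((inc l).1 = true ↔ vb l + 1 = 2 ^ l.length) ∧
    ((inc l).1 = false → vb (inc l).2 = vb l + 1) ∧ ((inc l).1 = true → vb (inc l).2 = 0) := by
  induction l with
  | nil => simp [inc, vb]
  | cons b l ih =>
    obtain ⟨h1, h2, h3⟩ := ih
    have h4 := vb_lt l
    have h5 := inc_length l
    have e : inc (b :: l) = istep b (inc l) := rfl
    rw [e]
    cases hc : (inc l).1 with
    | true =>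
      have h6 := h1.1 hc
      have h7 := h3 hc
      cases b with
      | true =>
        simp only [istep, hc, Bool.and_self, Bool.xor_self, vb, List.length_cons, if_true, pow_succ,
          h7, true_iff]
        refine ⟨by omega, by simp, by simp⟩
      | false =>
        simp only [istep, hc, Bool.and_false, Bool.false_xor, vb, List.length_cons, if_true,
          pow_succ, h7, h5]
        refine ⟨by simp; omega, ?_, by simp⟩
        intro _
        simp only [Bool.false_eq_true, if_false]
        omega
    | false =>
      have h6 := h2 hc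
      have h8 : vb l + 1 ≠ 2 ^ l.length := fun h => by
        have := h1.2 h
        rw [hc] at this
        cases this
      simp only [istep, hc, Bool.false_and, Bool.xor_false, vb, List.length_cons, pow_succ,
        h6, h5]
      refine ⟨?_, fun _ => by omega, by simp⟩
      constructor
      · simp
      · intro h
        split_ifs at h <;> omega

/-- The `k`-th word of length `n`. -/
def wk (n k : ℕ) : List Bool := (fun l => (inc l).2)^[k] (List.replicate n false)

theorem wk_succ (n k : ℕ) : wk n (k + 1) = (inc (wk n k)).2 := Function.iterate_succ_apply' _ _ _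

theorem length_wk (n : ℕ) : ∀ k, (wk n k).length = n
  | 0 => by simp [wk]
  | k + 1 => by rw [wk_succ, inc_length, length_wk n k]

theorem vb_wk (n : ℕ) : ∀ k, k < 2 ^ n → vb (wk n k) = k
  | 0, _ => vb_replicate n
  | k + 1, h => by
    have ih := vb_wk n k (by omega)
    obtain ⟨h1, h2, _⟩ := inc_spec (wk n k)
    rw [length_wk, ih] at h1
    rw [wk_succ, h2, ih]
    rw [← Bool.not_eq_true, h1]
    omega

theorem exists_wk {n : ℕ} {w : List Bool} (h : w.length = n) : ∃ k < 2 ^ n, wk n k = w := by
  subst h
  refine ⟨vb w, vb_lt w, vb_inj (length_wk _ _) (vb_wk _ _ (vb_lt w))⟩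

/-! ### The search -/

section

variable (R : List Bool → List Bool → Bool)

/-- The states of the search: the input, a counter, a word, and a flag. -/
abbrev St : Type := List Bool × List Bool × List Bool × Bool

/-- The initial state. -/
def st0 (y : List Bool) : St := (y, y, [false], false)

/-- One step. -/
def sF (s : St) : Bool × St :=
  if s.2.1 = [] then
    (if R s.1 s.2.2.1 = true then (true, (s.1, [], s.2.2.1, true))
    else if (inc s.2.2.1).1 = true then (true, (s.1, [], s.2.2.1, false))
    else (false, (s.1, [], (inc s.2.2.1).2, false)))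
  else (false, (s.1, s.2.1.tail, s.2.2.1 ++ s.2.2.1, false))

/-- The language decided by the search. -/
def SL : Set (List Bool) := {y | ¬ ∃ w : List Bool, w.length = 2 ^ y.length ∧ R y w = true}

theorem phase1 (y : List Bool) : ∀ i ≤ y.length,
    (fun s => (sF R s).2)^[i] (st0 y) = (y, y.drop i, List.replicate (2 ^ i) false, false)
  | 0, _ => by simp [st0]
  | i + 1, hi => by
    rw [Function.iterate_succ_apply', phase1 y i (by omega)]
    have : y.drop i ≠ [] := by
      intro h
      rw [List.drop_eq_nil_iff] at h
      omega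
    simp only [sF, this, if_false, List.tail_drop, ← List.replicate_add]
    rw [pow_succ, mul_two]

theorem phase1_flag (y : List Bool) {i : ℕ} (hi : i < y.length) :
    (sF R ((fun s => (sF R s).2)^[i] (st0 y))).1 = false := by
  rw [phase1 R y i hi.le]
  have : y.drop i ≠ [] := by
    intro h
    rw [List.drop_eq_nil_iff] at h
    omega
  simp only [sF, this, if_false]

/-- The search stops at the word number `k`. -/
def Stop (y : List Bool) (k : ℕ) : Prop :=
  R y (wk (2 ^ y.length) k) = true ∨ k + 1 = 2 ^ (2 ^ y.length)

instance (y : List Bool) (k : ℕ) : Decidable (Stop R y k) := by unfold Stop; infer_instance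

theorem exists_stop (y : List Bool) : ∃ k, Stop R y k := by
  refine ⟨2 ^ (2 ^ y.length) - 1, Or.inr ?_⟩
  have : 0 < 2 ^ (2 ^ y.length) := by positivity
  omega

/-- The number of the word at which the search stops. -/
def k0 (y : List Bool) : ℕ := Nat.find (exists_stop R y)

theorem k0_spec (y : List Bool) : Stop R y (k0 R y) := Nat.find_spec (exists_stop R y)

theorem k0_min (y : List Bool) {k : ℕ} (h : k < k0 R y) : ¬ Stop R y k :=
  Nat.find_min (exists_stop R y) h

theorem k0_lt (y : List Bool) : k0 R y < 2 ^ (2 ^ y.length) := by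
  have h0 : 0 < 2 ^ (2 ^ y.length) := by positivity
  have : k0 R y ≤ 2 ^ (2 ^ y.length) - 1 := by
    refine Nat.find_min' _ (Or.inr ?_)
    omega
  omega

theorem phase2 (y : List Bool) : ∀ k ≤ k0 R y,
    (fun s => (sF R s).2)^[y.length + k] (st0 y) = (y, [], wk (2 ^ y.length) k, false)
  | 0, _ => by
    rw [Nat.add_zero, phase1 R y _ le_rfl]
    simp [wk]
  | k + 1, hk => by
    rw [← Nat.add_assoc, Function.iterate_succ_apply', phase2 y k (by omega)]
    have h1 := k0_min R y (k := k) (by omega)
    unfold Stop at h1
    push Not at h1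
    obtain ⟨h2, h3⟩ := h1
    have h4 := (inc_spec (wk (2 ^ y.length) k)).1
    rw [length_wk, vb_wk _ _ (by have := k0_lt R y; omega)] at h4
    have h5 : ¬ (inc (wk (2 ^ y.length) k)).1 = true := fun h => h3 (h4.1 h)
    simp only [sF, if_true, h2, Bool.false_eq_true, if_false, h5, wk_succ]

theorem phase2_flag (y : List Bool) {k : ℕ} (hk : k < k0 R y) :
    (sF R ((fun s => (sF R s).2)^[y.length + k] (st0 y))).1 = false := by
  rw [phase2 R y k hk.le]
  have h1 := k0_min R y hk
  unfold Stop at h1
  push Not at h1
  obtain ⟨h2, h3⟩ := h1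
  have h4 := (inc_spec (wk (2 ^ y.length) k)).1
  rw [length_wk, vb_wk _ _ (by have := k0_lt R y; omega)] at h4
  have h5 : ¬ (inc (wk (2 ^ y.length) k)).1 = true := fun h => h3 (h4.1 h)
  simp only [sF, if_true, h2, Bool.false_eq_true, if_false, h5]

theorem stop_step (y : List Bool) :
    sF R ((fun s => (sF R s).2)^[y.length + k0 R y] (st0 y)) =
      (true, (y, [], wk (2 ^ y.length) (k0 R y), R y (wk (2 ^ y.length) (k0 R y)))) := by
  rw [phase2 R y _ le_rfl]
  have h1 := k0_spec R y
  unfold Stop at h1
  have h4 := (inc_spec (wk (2 ^ y.length) (k0 R y))).1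
  rw [length_wk, vb_wk _ _ (k0_lt R y)] at h4
  cases hR : R y (wk (2 ^ y.length) (k0 R y)) with
  | true => simp only [sF, if_true, hR]
  | false =>
    rw [hR] at h1
    have h5 : (inc (wk (2 ^ y.length) (k0 R y))).1 = true := h4.2 (by simpa using h1)
    simp only [sF, if_true, hR, Bool.false_eq_true, if_false, h5]

theorem mem_SL_iff (y : List Bool) :
    y ∈ SL R ↔ (!((fun s => (sF R s).2)^[y.length + k0 R y + 1] (st0 y)).2.2.2) = true := by
  rw [Function.iterate_succ_apply', stop_step]
  simp only [SL, Set.mem_ofPred_eq, Bool.not_eq_true', not_exists, not_and, Bool.not_eq_true]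
  constructor
  · intro h
    exact h _ (length_wk _ _)
  · intro h w hw
    obtain ⟨k, hk, rfl⟩ := exists_wk hw
    have h1 := k0_spec R y
    unfold Stop at h1
    rw [h] at h1
    have h2 : k0 R y + 1 = 2 ^ 2 ^ y.length := by simpa using h1
    rcases Nat.lt_or_ge k (k0 R y) with h3 | h3
    · have h4 := k0_min R y h3
      unfold Stop at h4
      push Not at h4
      simpa using h4.1
    · obtain rfl : k = k0 R y := by omega
      exact h

theorem sz_st (y c w : List Bool) (b : Bool) (hc : c.length ≤ y.length)
    (hw : w.length ≤ 2 ^ y.length) : sz ((y, c, w, b) : St) ≤ 2 ^ (y.length + 5) := by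
  simp only [sz_pair]
  have h1 := sz_listBool_le y
  have h2 := sz_listBool_le c
  have h3 := sz_listBool_le w
  have h4 := sz_bool_le b
  have h5 : y.length < 2 ^ y.length := Nat.lt_two_pow_self
  rw [pow_add]
  omega

theorem search_sz (y : List Bool) : ∀ i ≤ y.length + k0 R y + 1,
    sz ((fun s => (sF R s).2)^[i] (st0 y)) ≤ 2 ^ (y.length + 5) := by
  intro i hi
  rcases Nat.lt_or_ge i (y.length + 1) with h | h
  · rw [phase1 R y i (by omega)]
    refine sz_st _ _ _ _ (by simp) ?_
    rw [List.length_replicate]
    exact Nat.pow_le_pow_right (by norm_num) (by omega)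
  · rcases Nat.lt_or_ge i (y.length + k0 R y + 1) with h' | h'
    · obtain ⟨k, rfl⟩ : ∃ k, i = y.length + k := ⟨i - y.length, by omega⟩
      rw [phase2 R y k (by omega)]
      exact sz_st _ _ _ _ (by simp) (by rw [length_wk])
    · obtain rfl : i = y.length + k0 R y + 1 := by omega
      rw [Function.iterate_succ_apply', stop_step]
      exact sz_st _ _ _ _ (by simp) (by rw [length_wk])

end

theorem poly_inc : NPC.Poly inc := by
  unfold inc
  refine NPC.Poly.foldr (l := fun l : List Bool => l) (s := fun _ => (true, ([] : List Bool)))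
    (F := fun _ b s => istep b s) NPC.Poly.id (NPC.Poly.const _) ?_ (4 * Polynomial.X + 5) ?_
  · unfold istep
    fun_prop
  · intro l k _
    have h1 : (inc (l.drop k)).2.length = (l.drop k).length := inc_length _
    have h2 : (l.drop k).foldr istep (true, []) = inc (l.drop k) := rfl
    rw [h2]
    have h3 := sz_listBool_le (inc (l.drop k)).2
    have h4 := sz_bool_le (inc (l.drop k)).1
    have h5 := length_lt_sz l
    rw [h1, List.length_drop] at h3
    have h6 : sz (inc (l.drop k)) = sz (inc (l.drop k)).1 + sz (inc (l.drop k)).2 + 1 := by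
      conv_lhs => rw [← Prod.mk.eta (p := inc (l.drop k))]
      rw [sz_pair]
    rw [h6]
    simp only [Polynomial.eval_add, Polynomial.eval_mul, Polynomial.eval_X,
      Polynomial.eval_ofNat]
    omega

theorem poly_sF {R : List Bool → List Bool → Bool}
    (hR : NPC.Poly (fun p : List Bool × List Bool => R p.1 p.2)) : NPC.Poly (sF R) := by
  have h1 : NPC.Poly (fun s : St => s.1) := by fun_prop
  have h2 : NPC.Poly (fun s : St => s.2.1) := by fun_prop
  have h3 : NPC.Poly (fun s : St => s.2.2.1) := by fun_prop
  have h4 : NPC.Poly (fun s : St => R s.1 s.2.2.1) :=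
    hR.comp (f := fun s : St => (s.1, s.2.2.1)) (NPC.Poly.pair h1 h3)
  have h5 : NPC.Poly (fun s : St => inc s.2.2.1) := poly_inc.comp h3
  unfold sF
  refine NPC.Poly.ite (NPC.Poly.decide_eq h2 (NPC.Poly.const _)) (NPC.Poly.ite
    (NPC.Poly.decide_eq h4 (NPC.Poly.const _)) (by fun_prop) (NPC.Poly.ite
    (NPC.Poly.decide_eq (NPC.Poly.fst h5) (NPC.Poly.const _)) (by fun_prop) ?_)) (by fun_prop)
  fun_prop

/-- The language of a search is in `EXPSPACE`. -/
theorem inEXPSPACE_SL {R : List Bool → List Bool → Bool}
    (hR : NPC.Poly (fun p : List Bool × List Bool => R p.1 p.2)) : InEXPSPACE (SL R) := by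
  refine inEXPSPACE_of_process (init := st0) (F := sF R) (out := fun s : St => !s.2.2.2)
    (by unfold st0; fun_prop) (poly_sF hR) (by fun_prop) (Polynomial.X + 5)
    (fun y => y.length + k0 R y) ?_ ?_ ?_ (mem_SL_iff R)
  · intro y i hi
    rcases Nat.lt_or_ge i y.length with h | h
    · exact phase1_flag R y h
    · obtain ⟨k, rfl⟩ : ∃ k, i = y.length + k := ⟨i - y.length, by omega⟩
      exact phase2_flag R y (by omega)
  · intro y
    rw [stop_step]
  · intro y i hi
    simp only [Polynomial.eval_add, Polynomial.eval_X, Polynomial.eval_ofNat]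
    exact search_sz R y i hi

/-! ### The diagonal language -/

/-- The test made on the input `y` and the word `w`: the algorithm coded by `y` accepts the input
`y` with the certificate `(unpair w).1`, in the time given by the length of the rest of `w`. -/
def dv (y w : List Bool) : Bool :=
  (unbits (Code × List Unit) y).elim false (fun i =>
    decide (U i.1 (pairBits y (unpair w).1) ((unpair w).2.map (fun _ => ())).length =
      some [true]))

theorem poly_dv : NPC.Poly (fun p : List Bool × List Bool => dv p.1 p.2) := by
  unfold dv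
  have h0 : NPC.Poly (unbits (Code × List Unit)) := poly_unbits
  have h1 : NPC.Poly (fun p : List Bool × List Bool => unbits (Code × List Unit) p.1) :=
    h0.comp (by fun_prop)
  refine NPC.Poly.optElim h1 (by fun_prop) ?_
  refine NPC.Poly.dec_eq (f := fun p : (List Bool × List Bool) × (Code × List Unit) =>
    U p.2.1 (pairBits p.1.1 (unpair p.1.2).1) ((unpair p.1.2).2.map (fun _ => ())).length)
    (g := fun _ => some [true]) ?_ (by fun_prop)
  exact poly_U.comp (f := fun p : (List Bool × List Bool) × (Code × List Unit) =>
    (p.2.1, pairBits p.1.1 (unpair p.1.2).1, (unpair p.1.2).2.map (fun _ => ())))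
    (by fun_prop)

/-- The diagonal language. -/
def DL : Set (List Bool) := SL dv

theorem inEXPSPACE_DL : InEXPSPACE DL := inEXPSPACE_SL poly_dv

/-- Verifiers can reject all long certificates. -/
theorem InNP.strong {L : Set (List Bool)} (hL : InNP L) :
    ∃ (V : List Bool → List Bool) (p : Polynomial ℕ), PolyTime V ∧
      (∀ x w, V (pairBits x w) = [true] → w.length ≤ p.eval x.length) ∧
      ∀ x, x ∈ L ↔ ∃ w : List Bool, V (pairBits x w) = [true] := by
  obtain ⟨V, p, hV, h⟩ := hL
  refine ⟨fun z => if (unpair z).2.length ≤ p.eval (unpair z).1.length then V z else [], p,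
    ?_, ?_, ?_⟩
  · refine polyTime_of_poly' ?_
    have h1 : NPC.Poly (fun z : List Bool => (unpair z).2.length) := by fun_prop
    have h2 : NPC.Poly (fun z : List Bool => p.eval (unpair z).1.length) :=
      (UPoly.eval (UPoly.length (by fun_prop)) p).toPoly
    exact NPC.Poly.ite (NPC.Poly.decide_le h1 h2) (poly_of_polyTime hV) (NPC.Poly.const _)
  · intro x w hw
    simp only [unpair_pairBits] at hw
    by_contra hcon
    rw [if_neg hcon] at hw
    simp at hw
  · intro x
    rw [h]
    constructor
    · rintro ⟨w, h1, h2⟩
      refine ⟨w, ?_⟩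
      simp only [unpair_pairBits, if_pos h1]
      exact h2
    · rintro ⟨w, hw⟩
      simp only [unpair_pairBits] at hw
      by_cases h1 : w.length ≤ p.eval x.length
      · rw [if_pos h1] at hw
        exact ⟨w, h1, hw⟩
      · rw [if_neg h1] at hw
        simp at hw

theorem not_inNP_DL : ¬ InNP DL := by
  intro hcon
  obtain ⟨V, p, hV, hlen, hiff⟩ := InNP.strong hcon
  obtain ⟨e, q, he⟩ := U_complete hV
  have hcode : IsCode e V q := he
  obtain ⟨n₀, hn₀⟩ := exists_n0 (2 * p + 1 + q.comp (2 * Polynomial.X + 1 + p))
  set y := bits (e, List.replicate n₀ ()) with hy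
  have hyl : n₀ ≤ y.length := by
    have h1 := length_lt_sz (List.replicate n₀ ())
    rw [List.length_replicate] at h1
    rw [hy, bits_length]
    simp only [sz_pair]
    omega
  have hbig := hn₀ y.length hyl
  simp only [Polynomial.eval_add, Polynomial.eval_mul, Polynomial.eval_ofNat,
    Polynomial.eval_X, Polynomial.eval_one, Polynomial.eval_comp] at hbig
  have hdv : ∀ w, dv y w = decide (U e (pairBits y (unpair w).1) (unpair w).2.length =
      some [true]) := by
    intro w
    unfold dv
    rw [hy, unbits_bits]
    simp
  by_cases hmem : y ∈ DL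
  · obtain ⟨w, hw⟩ := (hiff y).1 hmem
    have h1 := hlen y w hw
    have h2 : q.eval (pairBits y w).length ≤ q.eval (2 * y.length + 1 + p.eval y.length) := by
      refine eval_mono q ?_
      rw [length_pairBits]
      omega
    refine hmem ⟨pairBits w (List.replicate (2 ^ y.length - (2 * w.length + 1)) false), ?_, ?_⟩
    · rw [length_pairBits, List.length_replicate]
      omega
    · rw [hdv, unpair_pairBits]
      simp only [List.length_replicate, decide_eq_true_eq]
      rw [he _ _ (by omega), hw]
  · have h1 : ∃ w : List Bool, w.length = 2 ^ y.length ∧ dv y w = true := not_not.1 hmem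
    obtain ⟨w, _, hw⟩ := h1
    rw [hdv, decide_eq_true_eq] at hw
    exact hmem ((hiff y).2 ⟨_, (hcode.eq hw).symm⟩)

/-- `EXPSPACE` is not contained in `NP`. -/
theorem exists_expspace_not_np : ∃ L : Set (List Bool), InEXPSPACE L ∧ ¬ InNP L :=
  ⟨DL, inEXPSPACE_DL, not_inNP_DL⟩

end Pool.Agent.U30.BP
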