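import Pool.Agent.U30.BP.Red
import Pool.Agent.H623R2.PS.Space

/-!
# Membership in `EXPSPACE`
-/

namespace Pool.Agent.U30.BP

open Turing Pool.Agent.NPC Pool.Agent.H623R2.PS

theorem eval_le_pow (P : Polynomial ℕ) (m : ℕ) (hm : 1 ≤ m) :
    P.eval m ≤ P.eval 1 * m ^ P.natDegree := by
  rw [Polynomial.eval_eq_sum_range, Polynomial.eval_eq_sum_range, Finset.sum_mul]
  refine Finset.sum_le_sum fun i hi => ?_
  rw [Finset.mem_range] at hi
  rw [one_pow, mul_one]
  exact Nat.mul_le_mul_left _ (Nat.pow_le_pow_right hm (by omega))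

theorem exists_n0 (P : Polynomial ℕ) : ∃ n₀ : ℕ, ∀ n ≥ n₀, P.eval n ≤ 2 ^ n := by
  have h := tendsto_pow_const_div_const_pow_of_one_lt P.natDegree (r := (2 : ℝ)) (by norm_num)
  have h2 : ∀ᶠ n : ℕ in Filter.atTop,
      (n : ℝ) ^ P.natDegree / 2 ^ n < 1 / ((P.eval 1 : ℕ) + 1 : ℝ) :=
    h.eventually_lt_const (by positivity)
  obtain ⟨n₁, hn₁⟩ := Filter.eventually_atTop.1 h2
  refine ⟨max n₁ 1, fun n hn => ?_⟩
  have h3 := hn₁ n ((le_max_left _ _).trans hn)
  have h4 := eval_le_pow P n ((le_max_right _ _).trans hn)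
  rw [div_lt_div_iff₀ (by positivity) (by positivity), one_mul] at h3
  have h5 : ((P.eval 1 * n ^ P.natDegree : ℕ) : ℝ) ≤ ((2 ^ n : ℕ) : ℝ) := by
    push_cast
    have h6 : (0 : ℝ) ≤ (n : ℝ) ^ P.natDegree := by positivity
    nlinarith
  exact h4.trans (by exact_mod_cast h5)

/-- A polynomial of `2 ^ q(n)` is bounded by `2 ^ r(n)`. -/
theorem exists_exp_bound (P q : Polynomial ℕ) : ∃ r : Polynomial ℕ, ∀ n : ℕ,
    P.eval (2 ^ q.eval n) ≤ 2 ^ r.eval n := by
  refine ⟨Polynomial.C (P.eval 1) + Polynomial.C P.natDegree * q, fun n => ?_⟩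
  simp only [Polynomial.eval_add, Polynomial.eval_mul, Polynomial.eval_C]
  calc P.eval (2 ^ q.eval n) ≤ P.eval 1 * (2 ^ q.eval n) ^ P.natDegree :=
        eval_le_pow P _ Nat.one_le_two_pow
    _ ≤ 2 ^ P.eval 1 * (2 ^ q.eval n) ^ P.natDegree :=
        Nat.mul_le_mul_right _ Nat.lt_two_pow_self.le
    _ = 2 ^ (P.eval 1 + P.natDegree * q.eval n) := by rw [← pow_mul, ← pow_add, mul_comm (q.eval n)]

/-- A program whose space is bounded by an exponential function gives a language in `EXPSPACE`. -/
theorem inEXPSPACE_of_runS {L : Set (List Bool)} {f : List Bool → Bool}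
    (hf : ∀ x, x ∈ L ↔ f x = true) (c : Cmd ℕ) (b : List Bool → ℕ)
    (h : ∀ x : List Bool, RunS (b x) c (inp x) (inp [f x]))
    (r : Polynomial ℕ) (hr : ∀ x : List Bool, (c.bd + 1) * b x ≤ 2 ^ r.eval x.length) :
    InEXPSPACE L := by
  have key : ∀ x : List Bool, RunS (b x) (c.map (Fin.ofNat (c.bd + 1)))
      (inp x : Fin (c.bd + 1) → List Bool) (inp [f x]) := by
    intro x
    have h1 := (h x).restrict (n := c.bd) (by omega)
    convert! h1 using 1
    · funext i
      by_cases hi : i = 0
      · subst hi; simp [inp]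
      · have : (i : ℕ) ≠ 0 := fun h => hi (Fin.ext h)
        simp [inp, hi, this]
    · funext i
      by_cases hi : i = 0
      · subst hi; simp [inp]
      · have : (i : ℕ) ≠ 0 := fun h => hi (Fin.ext h)
        simp [inp, hi, this]
  set d := c.map (Fin.ofNat (c.bd + 1)) with hd
  have path : ∀ x : List Bool, Relation.ReflTransGen
      (SR d.toTM.m (b x)) (initList d.toTM x) (haltList d.toTM [f x]) := by
    intro x
    obtain ⟨v, hv⟩ := codeS (key x) (L := Option d.Lbl)
      (fun l => Option.rec (TM2.Stmt.load (fun _ => none) TM2.Stmt.halt)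
        (fun l => d.code some none l) l) some none (fun l => rfl) none
    rw [initList_toTM, haltList_toTM]
    refine Relation.ReflTransGen.tail hv ⟨rfl, (key x).right⟩
  have hstop : ∀ x : List Bool, TM2.step d.toTM.m (haltList d.toTM [f x]) = none := by
    intro x
    rw [haltList_toTM]
    rfl
  refine ⟨f, { tm := d.toTM
               inputAlphabet := Equiv.refl Bool
               outputAlphabet := Equiv.refl Bool
               outputsFun := fun x => ?_ }, r, hf, ?_⟩
  · have h1 : StateTransition.Reaches d.toTM.step (initList d.toTM x) (haltList d.toTM [f x]) :=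
      (path x).lift (fun a => a) (fun a b h => h.1)
    have h2 := (outputs_of_reaches h1).some
    have e1 : (x.map (Equiv.refl Bool).invFun) = x := List.map_id x
    refine ⟨h2.steps, ?_⟩
    have h3 := h2.evals_in_steps
    convert! h3 using 2
    exact congrArg some (congrArg (initList d.toTM) e1)
  · intro x cf hcf
    have e1 : (x.map (Equiv.refl Bool).invFun) = x := List.map_id x
    have e2 : initList d.toTM (x.map (Equiv.refl Bool).invFun) = initList d.toTM x :=
      congrArg (initList d.toTM) e1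
    have hcf' : StateTransition.Reaches (TM2.step d.toTM.m) (initList d.toTM x) cf :=
      Eq.mp (congrArg (fun z => StateTransition.Reaches (TM2.step d.toTM.m) z cf) e2) hcf
    have ha : Bd (b x) (initList d.toTM x).stk := by
      rw [initList_toTM]
      exact (key x).left
    have hbd := bd_of_reaches (path x) ha (hstop x) hcf'
    have h4 : space cf = ∑ k : Fin (c.bd + 1), (cf.stk k).length := rfl
    rw [h4]
    refine le_trans ?_ (hr x)
    calc ∑ k : Fin (c.bd + 1), (cf.stk k).length
        ≤ ∑ _k : Fin (c.bd + 1), b x := Finset.sum_le_sum fun k _ => hbd k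
      _ = (c.bd + 1) * b x := by simp

/-- A deterministic process with polynomial-time steps and exponentially bounded states that halts
decides a language in `EXPSPACE`. -/
theorem inEXPSPACE_of_process {β : Type} [TEnc β] {L : Set (List Bool)}
    {init : List Bool → β} (hinit : NPC.Poly init) {F : β → Bool × β} (hF : NPC.Poly F)
    {out : β → Bool} (hout : NPC.Poly out) (q : Polynomial ℕ) (N : List Bool → ℕ)
    (h1 : ∀ x, ∀ i < N x, (F ((fun b => (F b).2)^[i] (init x))).1 = false)
    (h2 : ∀ x, (F ((fun b => (F b).2)^[N x] (init x))).1 = true)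
    (hq : ∀ x, ∀ i ≤ N x + 1, sz ((fun b => (F b).2)^[i] (init x)) ≤ 2 ^ q.eval x.length)
    (hL : ∀ x, x ∈ L ↔ out ((fun b => (F b).2)^[N x + 1] (init x)) = true) : InEXPSPACE L := by
  obtain ⟨c0, p0, hc0⟩ : PC (fun x : List Bool => x) (bits : β → List Bool) init :=
    PC.comp (g := init) (f := fun x => x) hinit PC.rawIn
  obtain ⟨cF, pF, hcF⟩ := hF
  obtain ⟨c1, p1, hc1⟩ : PC (bits : β → List Bool) (fun x : List Bool => x) (fun b => [out b]) :=
    PC.comp (g := fun b => [b]) (f := out) PC.rawBool hout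
  set cc : Cmd ℕ := Cmd.seq c0 (Cmd.seq (Cmd.push 1 true) (Cmd.seq (Cmd.loop 1 (bodyC cF)) c1))
    with hcc
  -- the bound
  obtain ⟨r, hr⟩ := exists_exp_bound ((Polynomial.C (cc.bd + 1)) *
    (Polynomial.X + p0 + (Polynomial.X + 1 + (pF + 6)) + p1 + 2)) (q + Polynomial.X)
  refine inEXPSPACE_of_runS (f := fun x => out ((fun b => (F b).2)^[N x + 1] (init x))) hL
    cc (fun x => x.length + p0.eval x.length + (2 ^ q.eval x.length + 1 +
      (pF.eval (2 ^ q.eval x.length) + 6)) + p1.eval (2 ^ q.eval x.length) + 2) ?_ r ?_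
  · intro x
    set n := x.length with hn
    have hx0 : sz (init x) ≤ 2 ^ q.eval n := hq x 0 (by omega)
    have hxN : sz ((fun b => (F b).2)^[N x + 1] (init x)) ≤ 2 ^ q.eval n := hq x (N x + 1) le_rfl
    have hpos : 1 ≤ 2 ^ q.eval n := Nat.one_le_two_pow
    have hc0x : Runs c0 (inp x) (inp (bits (init x))) (p0.eval n) := hc0 x
    refine RunS.seq (RunS.of_runs hc0x (L := n) ?_ (by omega)) ?_
    · rw [inp_eq_st]
      exact bd_st (by omega) (by simp) (by simp)
    refine RunS.seq (s' := st (bits (init x)) [true] []) ?_ ?_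
    · refine RunS.of_runs (t := 1) (L := 2 ^ q.eval n) ?_ ?_ (by omega)
      · rw [inp_eq_st]
        exact (Runs.push _ 1 true).conv rfl (by simp) le_rfl
      · rw [inp_eq_st]
        exact bd_st hx0 (by simp) (by simp)
    refine RunS.seq (s' := st (bits ((fun b => (F b).2)^[N x + 1] (init x))) [] []) ?_ ?_
    · exact loopS hcF (B := 2 ^ q.eval n) (by omega) (N x) (init x) (h1 x) (h2 x) (hq x)
    · have h3 := hc1 ((fun b => (F b).2)^[N x + 1] (init x))
      rw [inp_eq_st] at h3
      have h4 : p1.eval (bits ((fun b => (F b).2)^[N x + 1] (init x))).length ≤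
        p1.eval (2 ^ q.eval n) := eval_mono p1 hxN
      exact RunS.of_runs h3 (L := 2 ^ q.eval n) (bd_st hxN (by simp) (by simp)) (by omega)
  · intro x
    refine le_trans ?_ (hr x.length)
    simp only [Polynomial.eval_add, Polynomial.eval_mul, Polynomial.eval_C, Polynomial.eval_X,
      Polynomial.eval_one, Polynomial.eval_ofNat]
    have e1 : x.length ≤ 2 ^ (q.eval x.length + x.length) :=
      Nat.lt_two_pow_self.le.trans (Nat.pow_le_pow_right (by norm_num) (by omega))
    have e2 : 2 ^ q.eval x.length ≤ 2 ^ (q.eval x.length + x.length) :=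
      Nat.pow_le_pow_right (by norm_num) (by omega)
    have e3 := eval_mono p0 e1
    have e4 := eval_mono pF e2
    have e5 := eval_mono p1 e2
    exact Nat.mul_le_mul_left _ (by omega)

end Pool.Agent.U30.BP
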