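import Pool.Agent.U30.BP.Mach
import Pool.Agent.U30.BP.Clos

/-!
# Embedding the local rules into a one-dimensional, translation invariant process
-/

namespace Pool.Agent.U30.BP

section

variable {X : Type}

/-- The code of a kind of facts. -/
def code (n : ℕ) (idx : X → ℕ) : Option X → ℤ
  | none => 0
  | some y => 3 * ((n : ℤ) + idx y)

/-- The code of a conclusion. -/
def ccode (n : ℕ) (idx : X → ℕ) : Option (Option X) → ℤ
  | none => 1
  | some τ => code n idx τ

/-- The position of the fact of the code `c` at time `t` in the cell `j`. -/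
def pos (n B : ℕ) (t j c : ℤ) : ℤ := t * (((B : ℤ) + 5) * (12 * n)) + j * (12 * n) + c

/-- The offsets of a rule. -/
def offs (n B : ℕ) (idx : X → ℕ) (r : ARule X) : List ℤ :=
  r.prem.map fun p => pos n B p.1 p.2.1 (code n idx p.2.2) - ccode n idx r.concl

/-- Rules with an anchor among their premises, and another premise. -/
def Anchored (r : ARule X) : Prop :=
  (∃ a b, (a, b, none) ∈ r.prem) ∧ (∃ a b y, (a, b, some y) ∈ r.prem) ∧
    ∀ p ∈ r.prem, -1 ≤ p.2.1 ∧ p.2.1 ≤ 1

/-- The conclusion is not among the premises. -/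
def NonSelf (r : ARule X) : Prop := ∀ p ∈ r.prem, p.1 = 0 → p.2.1 = 0 → r.concl ≠ some p.2.2

theorem pos_uniq {n B : ℕ} {t j c : ℤ} (hc : |c| < 12 * n) (hj : |j| ≤ B + 3)
    (h : pos n B t j c = 0) : t = 0 ∧ j = 0 ∧ c = 0 := by
  unfold pos at h
  have hn : (0 : ℤ) < 12 * n := lt_of_le_of_lt (abs_nonneg c) hc
  have h1 : |j * (12 * n) + c| < ((B : ℤ) + 5) * (12 * n) := by
    refine lt_of_le_of_lt (abs_add_le _ _) ?_
    rw [abs_mul, abs_of_pos hn]
    nlinarith
  have h2 : j * (12 * n) + c = 0 := by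
    refine Int.eq_zero_of_abs_lt_dvd (m := ((B : ℤ) + 5) * (12 * n)) ?_ h1
    exact ⟨-t, by linarith⟩
  have h3 : c = 0 := Int.eq_zero_of_abs_lt_dvd (m := 12 * n) ⟨-j, by linarith⟩ hc
  subst h3
  have h4 : j = 0 := by
    have : j * (12 * n) = 0 := by linarith
    rcases mul_eq_zero.1 this with h | h
    · exact h
    · omega
  subst h4
  have h5 : t * (((B : ℤ) + 5) * (12 * n)) = 0 := by linarith
  rcases mul_eq_zero.1 h5 with h | h
  · exact ⟨h, rfl, rfl⟩
  · have : 0 < ((B : ℤ) + 5) * (12 * n) := by positivity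
    omega

theorem pos_sub (n B : ℕ) (t j c t' j' c' : ℤ) :
    pos n B t j c - pos n B t' j' c' = pos n B (t - t') (j - j') (c - c') := by
  unfold pos; ring

theorem pos_add (n B : ℕ) (t j c t' j' c' : ℤ) :
    pos n B t j c + pos n B t' j' c' = pos n B (t + t') (j + j') (c + c') := by
  unfold pos; ring

theorem code_nonneg (n : ℕ) (idx : X → ℕ) (τ : Option X) : 0 ≤ code n idx τ := by
  cases τ with
  | none => exact le_rfl
  | some y => simp only [code]; positivity

theorem three_dvd_code (n : ℕ) (idx : X → ℕ) (τ : Option X) : (3 : ℤ) ∣ code n idx τ := by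
  cases τ with
  | none => exact dvd_zero _
  | some y => exact dvd_mul_right _ _

theorem three_dvd_pos {n B : ℕ} {t j c : ℤ} (h : (3 : ℤ) ∣ c) : (3 : ℤ) ∣ pos n B t j c := by
  unfold pos
  refine dvd_add (dvd_add ?_ ?_) h
  · exact ⟨t * (((B : ℤ) + 5) * (4 * n)), by ring⟩
  · exact ⟨j * (4 * n), by ring⟩

variable {n B : ℕ} {idx : X → ℕ}

theorem code_lt (hlt : ∀ y, idx y < n) (hn : 0 < n) (τ : Option X) : code n idx τ < 6 * n := by
  cases τ with
  | none => simp only [code]; positivity
  | some y =>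
    have := hlt y
    simp only [code]
    omega

theorem code_inj (hinj : Function.Injective idx) (hn : 0 < n) {τ τ' : Option X}
    (h : code n idx τ = code n idx τ') : τ = τ' := by
  cases τ with
  | none =>
    cases τ' with
    | none => rfl
    | some y' => simp only [code] at h; omega
  | some y =>
    cases τ' with
    | none => simp only [code] at h; omega
    | some y' =>
      simp only [code] at h
      rw [hinj (show idx y = idx y' by omega)]

theorem ccode_nonneg (τ : Option (Option X)) : 0 ≤ ccode n idx τ := by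
  cases τ with
  | none => exact zero_le_one
  | some y => exact code_nonneg n idx y

theorem ccode_lt (hlt : ∀ y, idx y < n) (hn : 0 < n) (τ : Option (Option X)) :
    ccode n idx τ < 6 * n := by
  cases τ with
  | none => simp only [ccode]; omega
  | some y => exact code_lt hlt hn y

/-- Facts whose positions match the premises of a rule have the right kinds and places. -/
theorem frame (hlt : ∀ y, idx y < n) (hinj : Function.Injective idx) (hn : 0 < n)
    {D : ℤ → ℤ → Option X → Prop} (hD : ∀ t j τ, D t j τ → 0 ≤ j ∧ j ≤ B) {r : ARule X}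
    (hr : Anchored r) {x : ℤ}
    (hx : ∀ o ∈ offs n B idx r, ∃ t j τ, D t j τ ∧ x + o = pos n B t j (code n idx τ)) :
    ∃ t j, x = pos n B t j (ccode n idx r.concl) ∧
      ∀ p ∈ r.prem, D (t + p.1) (j + p.2.1) p.2.2 := by
  obtain ⟨⟨a, b, hab⟩, ⟨a', b', y, hab'⟩, hb⟩ := hr
  have hx' : ∀ p ∈ r.prem, ∃ t j τ, D t j τ ∧ x + (pos n B p.1 p.2.1 (code n idx p.2.2) -
      ccode n idx r.concl) = pos n B t j (code n idx τ) := fun p hp =>
    hx _ (List.mem_map_of_mem hp)
  obtain ⟨t₁, j₁, τ₁, h1, e1⟩ := hx' _ hab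
  obtain ⟨t₂, j₂, τ₂, h2, e2⟩ := hx' _ hab'
  have hb1 := hb _ hab
  have hb2 := hb _ hab'
  have hj1 := hD _ _ _ h1
  have hj2 := hD _ _ _ h2
  simp only at hb1 hb2 e1 e2
  have c1 := code_nonneg n idx τ₁
  have c2 := code_nonneg n idx τ₂
  have c3 := code_lt hlt hn τ₁
  have c4 := code_lt hlt hn τ₂
  have c5 := code_lt hlt hn (some y)
  have c6 : 3 * (n : ℤ) ≤ code n idx (some y) := by simp only [code]; omega
  have e3 : pos n B ((a' - a) - (t₂ - t₁)) ((b' - b) - (j₂ - j₁))
      ((code n idx (some y) - code n idx none) - (code n idx τ₂ - code n idx τ₁)) = 0 := by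
    have e4 : (pos n B a' b' (code n idx (some y)) - pos n B a b (code n idx none)) -
        (pos n B t₂ j₂ (code n idx τ₂) - pos n B t₁ j₁ (code n idx τ₁)) = 0 := by linarith
    rw [pos_sub, pos_sub, pos_sub] at e4
    exact e4
  have e0 : code n idx (none : Option X) = 0 := rfl
  rw [e0] at e3
  obtain ⟨e5, e6, e7⟩ := pos_uniq (by rw [abs_lt]; constructor <;> omega)
    (by rw [abs_le]; constructor <;> omega) e3
  have e8 : τ₁ = none := by
    cases τ₁ with
    | none => rfl
    | some y₁ =>
      exfalso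
      simp only [code] at c3 e7 c4 c5 c6
      have := hlt y
      cases τ₂ with
      | none => simp only at e7; omega
      | some y₂ =>
        have := hlt y₂
        simp only at e7
        omega
  subst e8
  have e9 : x = pos n B (t₁ - a) (j₁ - b) (ccode n idx r.concl) := by
    have : pos n B t₁ j₁ (code n idx none) - pos n B a b (code n idx none) =
        pos n B (t₁ - a) (j₁ - b) 0 := by rw [pos_sub, sub_self]
    have e10 : pos n B (t₁ - a) (j₁ - b) (ccode n idx r.concl) =
        pos n B (t₁ - a) (j₁ - b) 0 + ccode n idx r.concl := by unfold pos; ring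
    linarith
  refine ⟨t₁ - a, j₁ - b, e9, fun p hp => ?_⟩
  obtain ⟨t₃, j₃, τ₃, h3, e11⟩ := hx' p hp
  have hb3 := hb _ hp
  have hj3 := hD _ _ _ h3
  have c7 := code_nonneg n idx τ₃
  have c8 := code_lt hlt hn τ₃
  have c9 := code_nonneg n idx p.2.2
  have c10 := code_lt hlt hn p.2.2
  have e12 : pos n B (t₁ - a + p.1 - t₃) (j₁ - b + p.2.1 - j₃)
      (code n idx p.2.2 - code n idx τ₃) = 0 := by
    rw [← pos_sub, ← zero_add (code n idx p.2.2), ← pos_add]
    have e10 : pos n B (t₁ - a) (j₁ - b) (ccode n idx r.concl) =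
        pos n B (t₁ - a) (j₁ - b) 0 + ccode n idx r.concl := by unfold pos; ring
    linarith
  obtain ⟨e13, e14, e15⟩ := pos_uniq (by rw [abs_lt]; constructor <;> omega)
    (by rw [abs_le]; constructor <;> omega) e12
  have e16 : p.2.2 = τ₃ := code_inj hinj hn (by omega)
  have e17 : t₁ - a + p.1 = t₃ := by omega
  have e18 : j₁ - b + p.2.1 = j₃ := by omega
  rw [e16, e17, e18]
  exact h3

/-- A rule has two different offsets. -/
theorem two_offs (hlt : ∀ y, idx y < n) (hn : 0 < n) {r : ARule X} (hr : Anchored r) :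
    ∃ o ∈ offs n B idx r, ∃ o' ∈ offs n B idx r, o ≠ o' := by
  obtain ⟨⟨a, b, hab⟩, ⟨a', b', y, hab'⟩, hb⟩ := hr
  refine ⟨_, List.mem_map_of_mem hab, _, List.mem_map_of_mem hab', fun h => ?_⟩
  have hb1 := hb _ hab
  have hb2 := hb _ hab'
  simp only at h hb1 hb2
  have e1 : pos n B a' b' (code n idx (some y)) - pos n B a b (code n idx none) = 0 := by linarith
  rw [pos_sub] at e1
  have c5 := code_lt hlt hn (some y)
  have c6 : 3 * (n : ℤ) ≤ code n idx (some y) := by simp only [code]; omega
  have e0 : code n idx (none : Option X) = 0 := rfl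
  rw [e0] at e1
  obtain ⟨_, _, e7⟩ := pos_uniq (by rw [abs_lt]; constructor <;> omega)
    (by rw [abs_le]; constructor <;> omega) e1
  omega

theorem offs_ne_zero (hlt : ∀ y, idx y < n) (hinj : Function.Injective idx) (hn : 0 < n)
    {r : ARule X} (hr : Anchored r) (hs : NonSelf r) : (0 : ℤ) ∉ offs n B idx r := by
  intro h
  obtain ⟨p, hp, h⟩ := List.mem_map.1 h
  have hb := hr.2.2 p hp
  have c1 := code_nonneg n idx p.2.2
  have c2 := code_lt hlt hn p.2.2
  have c3 := ccode_nonneg (n := n) (idx := idx) r.concl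
  have c4 := ccode_lt hlt hn r.concl
  have e1 : pos n B p.1 p.2.1 (code n idx p.2.2 - ccode n idx r.concl) = 0 := by
    rw [← h]; unfold pos; ring
  obtain ⟨e2, e3, e4⟩ := pos_uniq (by rw [abs_lt]; constructor <;> omega)
    (by rw [abs_le]; constructor <;> omega) e1
  cases hc : r.concl with
  | none =>
    rw [hc] at e4
    simp only [ccode] at e4
    have := three_dvd_code n idx p.2.2
    omega
  | some τ =>
    rw [hc] at e4
    simp only [ccode] at e4
    have e5 : p.2.2 = τ := code_inj hinj hn (by omega)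
    exact hs p hp e2 e3 (by rw [hc, e5])

end

/-! ### The family -/

/-- The rule growing to the right. -/
def growR : List (ℤ × ℤ) := [(0, -1), (-1, 0), (-2, 0)]

/-- The rule growing to the left. -/
def growL : List (ℤ × ℤ) := [(0, -1), (1, 0), (2, 0)]

/-- A one-dimensional rule. -/
def rowR (l : List ℤ) : List (ℤ × ℤ) := (0, -1) :: l.map fun o => (o, 0)

/-- The rule which puts a site with the first coordinate `a` into the row `0`. -/
def seedR (a : ℤ) : List (ℤ × ℤ) := [(0, -1), (-a, 1)]

/-- Deleting repetitions. -/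
def norm (U : Family) : Family := (U.map List.dedup).dedup

/-- The family of a list of one-dimensional rules and a list of initial positions. -/
def fam0 (L : List (List ℤ)) (init : List ℤ) : Family :=
  growR :: growL :: (L.map rowR ++ init.map seedR)

theorem mem_norm {U : Family} {R : List (ℤ × ℤ)} : R ∈ norm U ↔ ∃ R' ∈ U, R'.dedup = R := by
  unfold norm
  rw [List.mem_dedup, List.mem_map]

theorem closedU_norm {U : Family} {A : Set (ℤ × ℤ)} : ClosedU (norm U) A ↔ ClosedU U A := by
  constructor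
  · intro h R hR x hx
    exact h _ (mem_norm.2 ⟨R, hR, rfl⟩) x fun v hv => hx v (List.mem_dedup.1 hv)
  · intro h R hR x hx
    obtain ⟨R', hR', rfl⟩ := mem_norm.1 hR
    exact h R' hR' x fun v hv => hx v (List.mem_dedup.2 hv)

theorem shape_fam {L : List (List ℤ)} {init : List ℤ} (hL : ∀ l ∈ L, l ≠ []) :
    Shape (norm (fam0 L init)) := by
  have hmem : ∀ R ∈ fam0 L init, R = growR ∨ R = growL ∨ (∃ l ∈ L, R = rowR l) ∨
      ∃ a ∈ init, R = seedR a := by
    intro R hR
    simp only [fam0, List.mem_cons, List.mem_append, List.mem_map] at hR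
    rcases hR with h | h | ⟨l, hl, h⟩ | ⟨a, ha, h⟩
    · exact Or.inl h
    · exact Or.inr (Or.inl h)
    · exact Or.inr (Or.inr (Or.inl ⟨l, hl, h.symm⟩))
    · exact Or.inr (Or.inr (Or.inr ⟨a, ha, h.symm⟩))
  constructor
  · intro R hR
    obtain ⟨R', hR', rfl⟩ := mem_norm.1 hR
    rw [List.mem_dedup]
    rcases hmem R' hR' with rfl | rfl | ⟨l, _, rfl⟩ | ⟨a, _, rfl⟩ <;>
      simp [growR, growL, rowR, seedR]
  · intro R hR
    obtain ⟨R', hR', rfl⟩ := mem_norm.1 hR
    simp only [List.mem_dedup]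
    rcases hmem R' hR' with rfl | rfl | ⟨l, hl, rfl⟩ | ⟨a, _, rfl⟩
    · exact ⟨(-1, 0), by simp [growR], le_rfl⟩
    · exact ⟨(1, 0), by simp [growL], le_rfl⟩
    · obtain ⟨o, ho⟩ := List.exists_mem_of_ne_nil l (hL l hl)
      exact ⟨(o, 0), by simp [rowR, ho], le_rfl⟩
    · exact ⟨(-a, 1), by simp [seedR], by norm_num⟩
  · refine ⟨growR.dedup, mem_norm.2 ⟨growR, by simp [fam0], rfl⟩, fun v hv => ?_⟩
    simpa [growR] using List.mem_dedup.1 hv
  · refine ⟨growL.dedup, mem_norm.2 ⟨growL, by simp [fam0], rfl⟩, fun v hv => ?_⟩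
    simpa [growL] using List.mem_dedup.1 hv

theorem isFamily_fam {L : List (List ℤ)} {init : List ℤ} (h0 : ∀ l ∈ L, (0 : ℤ) ∉ l) :
    IsFamily (norm (fam0 L init)) := by
  refine ⟨?_, List.nodup_dedup _, ?_⟩
  · exact List.ne_nil_of_mem (mem_norm.2 ⟨growR, by simp [fam0], rfl⟩)
  · intro R hR
    obtain ⟨R', hR', rfl⟩ := mem_norm.1 hR
    refine ⟨?_, List.nodup_dedup _, ?_⟩
    · have : ((0, -1) : ℤ × ℤ) ∈ R'.dedup := by
        rw [List.mem_dedup]
        simp only [fam0, List.mem_cons, List.mem_append, List.mem_map] at hR'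
        rcases hR' with rfl | rfl | ⟨l, hl, rfl⟩ | ⟨a, ha, rfl⟩ <;> simp [growR, growL, rowR, seedR]
      exact List.ne_nil_of_mem this
    · rw [List.mem_dedup]
      simp only [fam0, List.mem_cons, List.mem_append, List.mem_map] at hR'
      rcases hR' with rfl | rfl | ⟨l, hl, rfl⟩ | ⟨a, ha, rfl⟩
      · simp [growR]
      · simp [growL]
      · simp only [rowR, List.mem_cons, Prod.mk.injEq, List.mem_map, not_or]
        refine ⟨by norm_num, ?_⟩
        rintro ⟨o, ho, rfl, _⟩
        exact h0 l hl ho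
      · simp [seedR]

end Pool.Agent.U30.BP
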