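import Pool.Agent.U30.BP.Main
import Pool.Agent.H623R2.PS.TM

/-!
# Turing machines as finite stack machines
-/

namespace Pool.Agent.U30.BP

open Turing Pool.Agent.NPC Pool.Agent.H623R2.PS

/-- Control states. -/
abbrev FC (M : SM) : Type := {c : M.C // c ∈ M.LC}

/-- Symbols. -/
abbrev FG (M : SM) : Type := {z : (Σ k, M.Γ k) // z ∈ M.LG}

instance (M : SM) : Finite (FC M) := List.finite_toSet M.LC |>.to_subtype

instance (M : SM) : Finite (FG M) := List.finite_toSet M.LG |>.to_subtype

/-- Reading a symbol. -/
def dn (M : SM) (k : M.K) (o : Option (FG M)) : Option (M.Γ k) :=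
  o.bind fun z => if e : z.1.1 = k then some (e ▸ z.1.2) else none

/-- The operations. -/
def fop (M : SM) (c : FC M) : FOp (FC M) M.K (FG M) :=
  match h : M.op c.1 with
  | .stop => .stop
  | .move c' => .move ⟨c', M.hmove _ c.2 _ h⟩
  | .push k γ c' => .push k ⟨⟨k, γ⟩, (M.hpush _ c.2 _ _ _ h).2⟩ ⟨c', (M.hpush _ c.2 _ _ _ h).1⟩
  | .look k b g => .look k b fun o => ⟨g (dn M k o), M.hlook _ c.2 _ _ _ h _⟩

/-- The configurations agree. -/
def Sim (M : SM) (x : M.C × (∀ k, List (M.Γ k))) (y : FC M × (M.K → List (FG M))) : Prop :=
  x.1 = y.1.1 ∧ ∀ k, (y.2 k).map Subtype.val = (x.2 k).map fun γ => (⟨k, γ⟩ : Σ k, M.Γ k)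

theorem Sim.length {M : SM} {x : M.C × (∀ k, List (M.Γ k))} {y : FC M × (M.K → List (FG M))}
    (h : Sim M x y) (k : M.K) : (y.2 k).length = (x.2 k).length := by
  have := congrArg List.length (h.2 k)
  simpa using this

theorem Sim.head {M : SM} {x : M.C × (∀ k, List (M.Γ k))} {y : FC M × (M.K → List (FG M))}
    (h : Sim M x y) (k : M.K) : dn M k (y.2 k).head? = (x.2 k).head? := by
  have h1 := h.2 k
  cases hx : x.2 k with
  | nil =>
    rw [hx] at h1
    have : y.2 k = [] := List.map_eq_nil_iff.1 h1
    rw [this]
    rfl
  | cons a l =>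
    rw [hx] at h1
    cases hy : y.2 k with
    | nil => rw [hy] at h1; simp at h1
    | cons b m =>
      rw [hy] at h1
      simp only [List.map_cons, List.cons.injEq] at h1
      obtain ⟨⟨kb, gb⟩, hb⟩ := b
      have h2 := h1.1
      simp only at h2
      cases h2
      simp [dn]

theorem Sim.step_none {M : SM} {x : M.C × (∀ k, List (M.Γ k))}
    {y : FC M × (M.K → List (FG M))} (h : Sim M x y) (hx : M.step1 x = none) :
    fstep (fop M) y = none := by
  unfold SM.step1 at hx
  unfold fstep
  rw [h.1] at hx
  unfold fop
  split at hx
  · rename_i hop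
    split
    · rfl
    all_goals (rename_i h2; split at h2 <;> simp_all)
  all_goals simp at hx

theorem Sim.step {M : SM} {x x' : M.C × (∀ k, List (M.Γ k))}
    {y : FC M × (M.K → List (FG M))} (h : Sim M x y) (hx : M.step1 x = some x') :
    ∃ y', fstep (fop M) y = some y' ∧ Sim M x' y' := by
  unfold SM.step1 at hx
  unfold fstep
  rw [h.1] at hx
  unfold fop
  split at hx
  · simp at hx
  · rename_i c' hop
    simp only [Option.some.injEq] at hx
    subst hx
    split
    · rename_i h2; split at h2 <;> simp_all
    · rename_i h2
      split at h2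
      · simp at h2
      · rename_i c'' hop'
        rw [hop] at hop'
        cases hop'
        simp only [FOp.move.injEq] at h2
        subst h2
        exact ⟨_, rfl, rfl, h.2⟩
      · simp at h2
      · simp at h2
    · rename_i h2; split at h2 <;> simp_all
    · rename_i h2; split at h2 <;> simp_all
  · rename_i k γ c' hop
    simp only [Option.some.injEq] at hx
    subst hx
    split
    · rename_i h2; split at h2 <;> simp_all
    · rename_i h2; split at h2 <;> simp_all
    · rename_i h2
      split at h2
      · simp at h2
      · simp at h2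
      · rename_i k' γ' c'' hop'
        rw [hop] at hop'
        cases hop'
        simp only [FOp.push.injEq] at h2
        obtain ⟨rfl, rfl, rfl⟩ := h2
        refine ⟨_, rfl, rfl, ?_⟩
        intro k'
        by_cases hk : k' = k
        · subst hk
          simp only [Function.update_self, List.map_cons]
          rw [h.2 k']
        · simp only [Function.update_of_ne hk]
          exact h.2 k'
      · simp at h2
    · rename_i h2; split at h2 <;> simp_all
  · rename_i k b g hop
    simp only [Option.some.injEq] at hx
    subst hx
    split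
    · rename_i h2; split at h2 <;> simp_all
    · rename_i h2; split at h2 <;> simp_all
    · rename_i h2; split at h2 <;> simp_all
    · rename_i h2
      split at h2
      · simp at h2
      · simp at h2
      · simp at h2
      · rename_i k' b' g' hop'
        rw [hop] at hop'
        cases hop'
        simp only [FOp.look.injEq] at h2
        obtain ⟨rfl, rfl, rfl⟩ := h2
        refine ⟨_, rfl, ?_, ?_⟩
        · simp only
          rw [h.head k]
        · intro k'
          cases b with
          | false => exact h.2 k'
          | true =>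
            simp only [cond_true]
            by_cases hk : k' = k
            · subst hk
              simp only [Function.update_self, List.map_tail]
              rw [h.2 k']
            · simp only [Function.update_of_ne hk]
              exact h.2 k'

theorem exists_sim {M : SM} {x : M.C × (∀ k, List (M.Γ k))} (h : M.Good x) :
    ∃ y, Sim M x y := by
  have hk : ∀ k, ∃ l : List (FG M), l.map Subtype.val =
      (x.2 k).map fun γ => (⟨k, γ⟩ : Σ k, M.Γ k) := by
    intro k
    refine ⟨(x.2 k).pmap (fun γ hγ => (⟨⟨k, γ⟩, hγ⟩ : FG M)) (h.sym k), ?_⟩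
    rw [List.map_pmap, List.pmap_eq_map]
  choose f hf using hk
  exact ⟨(⟨x.1, h.ctl⟩, f), rfl, hf⟩

/-- Runs. -/
theorem run_sim {M : SM} {B : ℕ} {x x' : M.C × (∀ k, List (M.Γ k))}
    {y : FC M × (M.K → List (FG M))} (hr : Relation.ReflTransGen (M.MS B) x x')
    (h : Sim M x y) (hB : ∀ k, (x.2 k).length ≤ B) :
    ∃ n y', run (fop M) y n = some y' ∧ Sim M x' y' ∧
      ∀ m ≤ n, ∀ z, run (fop M) y m = some z → ∀ k, (z.2 k).length ≤ B := by
  induction hr with
  | refl =>
    refine ⟨0, y, rfl, h, ?_⟩
    intro m hm z hz k
    obtain rfl : m = 0 := by omega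
    have : y = z := Option.some.inj hz
    subst this
    rw [h.length k]
    exact hB k
  | @tail a b _ hab ih =>
    obtain ⟨n, y', h1, h2, h3⟩ := ih
    obtain ⟨y'', h4, h5⟩ := h2.step hab.1
    refine ⟨n + 1, y'', ?_, h5, ?_⟩
    · rw [run, h1]; exact h4
    · intro m hm z hz k
      rcases Nat.lt_or_ge m (n + 1) with hm' | hm'
      · exact h3 m (by omega) z hz k
      · obtain rfl : m = n + 1 := by omega
        rw [run, h1] at hz
        have : y'' = z := by
          have hz' : fstep (fop M) y' = some z := hz
          rw [h4] at hz'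
          exact Option.some.inj hz'
        subst this
        rw [h5.length k]
        exact hab.2 k

section

variable {f : List Bool → Bool}
  (M : TM2Computable (id : List Bool → List Bool) (fun b : Bool => [b]) f)

/-- The symbol for the output `true`. -/
noncomputable def oT : M.tm.Γ M.tm.k₁ := M.outputAlphabet.invFun true

/-- The stack machine. -/
noncomputable def sm : SM := toSM M.tm (oT M)

/-- The initial configuration. -/
noncomputable def x0 (x : List Bool) : (sm M).C × (∀ k, List ((sm M).Γ k)) :=
  conv M.tm (initList M.tm (x.map M.inputAlphabet.invFun))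

theorem good_x0 (x : List Bool) : (sm M).Good (x0 M x) := good_init M.tm (oT M) _

/-- The halting controls. -/
def isHalt (c : FC (sm M)) : Prop :=
  (show Option (TM2.Stmt M.tm.Γ M.tm.Λ M.tm.σ) × M.tm.σ from c.1).1 = none

/-- The output stack. -/
def kO : (sm M).K := M.tm.k₁

/-- The output symbol. -/
noncomputable def sO : FG (sm M) := ⟨⟨M.tm.k₁, oT M⟩, mem_allG_out M.tm (oT M)⟩

theorem step1_halt {v : M.tm.σ} {S : ∀ k, List (M.tm.Γ k)} :
    (sm M).step1 ((none, v), S) = none := rfl

/-- The run of the finite stack machine. -/
theorem run_fm {P : ℕ} {x : List Bool}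
    (hP : ∀ c : M.tm.Cfg, StateTransition.Reaches M.tm.step
      (initList M.tm (x.map M.inputAlphabet.invFun)) c → space c ≤ P)
    {y : FC (sm M) × ((sm M).K → List (FG (sm M)))} (hy : Sim (sm M) (x0 M x) y) :
    (∃ N, run (fop (sm M)) y N = none) ∧
    (∀ n z, run (fop (sm M)) y n = some z → ∀ k, (z.2 k).length ≤ P + maxDepth M.tm + 1) ∧
    (Acc (fop (sm M)) (isHalt M) (kO M) (sO M) y ↔ f x = true) := by
  have hrun : StateTransition.Reaches M.tm.step (initList M.tm (x.map M.inputAlphabet.invFun))
      (haltList M.tm [M.outputAlphabet.invFun (f x)]) := by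
    have h1 := (M.outputsFun x).evals_in_steps
    exact reaches_of_iterate _ h1
  have hbig : Relation.ReflTransGen ((sm M).MS (P + maxDepth M.tm + 1)) (x0 M x)
      (conv M.tm (haltList M.tm [M.outputAlphabet.invFun (f x)])) :=
    run_reaches (γ1 := oT M) hrun hP
  have hB0 : ∀ k, ((x0 M x).2 k).length ≤ P + maxDepth M.tm + 1 := by
    intro k
    have h1 := hP _ Relation.ReflTransGen.refl
    have h2 := length_le_space (initList M.tm (x.map M.inputAlphabet.invFun)) k
    have h3 : ((x0 M x).2 k).length ≤
      space (initList M.tm (x.map M.inputAlphabet.invFun)) := h2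
    omega
  obtain ⟨n, y', h1, h2, h3⟩ := run_sim hbig hy hB0
  have hnone : fstep (fop (sm M)) y' = none := h2.step_none (step1_halt M)
  have hN : run (fop (sm M)) y (n + 1) = none := by
    rw [run, h1]; exact hnone
  refine ⟨⟨n + 1, hN⟩, ?_, ?_⟩
  · intro m z hz k
    rcases Nat.lt_or_ge n m with hm | hm
    · rw [run_none hN (by omega)] at hz
      cases hz
    · exact h3 m hm z hz k
  · have hctl : isHalt M y'.1 := by
      unfold isHalt
      have := h2.1
      rw [← this]
      rfl
    have hout : (y'.2 (kO M)).map Subtype.val = [⟨M.tm.k₁, M.outputAlphabet.invFun (f x)⟩] := by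
      rw [h2.2 (kO M)]
      have := haltList_self M.tm [M.outputAlphabet.invFun (f x)]
      have e : (conv M.tm (haltList M.tm [M.outputAlphabet.invFun (f x)])).2 M.tm.k₁ =
        [M.outputAlphabet.invFun (f x)] := this
      exact congrArg (List.map fun γ => (⟨M.tm.k₁, γ⟩ : Σ k, M.tm.Γ k)) e
    constructor
    · rintro ⟨m, z, hz, hh, hs⟩
      -- the machine has stopped
      have hfz : fstep (fop (sm M)) z = none := by
        unfold fstep fop
        obtain ⟨⟨⟨s, v⟩, hc⟩, S⟩ := z
        have hs' : s = none := hh
        subst hs'
        rfl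
      have hm : run (fop (sm M)) y (m + 1) = none := by
        rw [run, hz]; exact hfz
      have e : m = n := by
        rcases Nat.lt_trichotomy m n with h | h | h
        · rw [run_none hm (by omega)] at h1
          cases h1
        · exact h
        · rw [run_none hN (by omega)] at hz
          cases hz
      subst e
      rw [h1] at hz
      have e : y' = z := Option.some.inj hz
      subst e
      have h4 : ((y'.2 (kO M)).map Subtype.val)[0]? = some ⟨M.tm.k₁, oT M⟩ := by
        rw [List.getElem?_map, hs]
        rfl
      rw [hout] at h4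
      simp only [List.getElem?_cons_zero, Option.some.injEq, Sigma.mk.injEq, heq_eq_eq,
        true_and] at h4
      exact M.outputAlphabet.symm.injective h4
    · intro hfx
      refine ⟨n, y', h1, hctl, ?_⟩
      rw [hfx] at hout
      cases hy2 : y'.2 (kO M) with
      | nil => rw [hy2] at hout; simp at hout
      | cons a l =>
        rw [hy2] at hout
        simp only [List.map_cons, List.cons.injEq, List.map_eq_nil_iff] at hout
        have : a = sO M := Subtype.ext hout.1
        rw [this]
        rfl

end

end Pool.Agent.U30.BP
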