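import Pool.Agent.U30.BP.Defs
import Pool.Agent.H820R2.SS.Exp

/-!
# The size of an update family; algorithms computing the difficulty
-/

namespace Pool.Agent.U30.BP

open Pool.Agent.NPC

/-- `D = 2 max ‖x‖∞`, the maximum over the points `x` of the rules of `U`. -/
def Dm (U : Family) : ℕ :=
  2 * (U.flatten.map fun v => max v.1.natAbs v.2.natAbs).foldr max 0

/-- The input size `‖U‖ = log D * ∑ |R|`, the sum over the rules `R` of `U`. -/
noncomputable def normU (U : Family) : ℝ := Real.log (Dm U) * ((U.map List.length).sum : ℕ)

/-- There is an algorithm (a Turing machine) which computes the difficulty `α` of every critical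
update family `U` with at most `t ‖U‖` steps. (The difficulty of a critical family is always
finite; nothing is required should it be infinite.) -/
def DiffInTime (t : ℝ → ℝ) : Prop :=
  ∃ (tm : Turing.FinTM2) (ia : tm.Γ tm.k₀ ≃ Bool) (oa : tm.Γ tm.k₁ ≃ Bool),
    ∀ U : Family, IsFamily U → Critical U → ∀ a : ℕ, diff U = a →
      ∃ n : ℕ, (n : ℝ) ≤ t (normU U) ∧
        Nonempty (Turing.TM2OutputsInTime tm ((bits U).map ia.invFun)
          (some ((bits a).map oa.invFun)) n)

end Pool.Agent.U30.BP
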