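import Pool.Agent.U30.BP.Red
import Pool.Agent.U30.BP.Gen
import Pool.Agent.U30.BP.FastDefs
import Pool.Agent.H820R2.SS.ExpTM

/-!
# A fast algorithm for the difficulty puts `EXPSPACE` into `EXPTIME`
-/

namespace Pool.Agent.U30.BP

open Turing Pool.Agent.NPC Pool.Agent.H820R2.SS

/-- The difficulty of a family of the special shape is at most `2`. -/
theorem diff_le_two {U : Family} (hU : Shape U) : diff U ≤ 2 := by
  rw [diff_shape hU]
  have h1 : Disjoint ({(0, 0), (1, 0)} : Set (ℤ × ℤ)) {x | x.2 < 0} := by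
    rw [Set.disjoint_left]
    rintro x (rfl | rfl) <;> simp
  have h2 : (cl U ({x | x.2 < 0} ∪ {(0, 0), (1, 0)}) \ {x | x.2 < 0}).Infinite := by
    obtain ⟨R, hR, hv⟩ := hU.gr
    set A := cl U ({x | x.2 < 0} ∪ {(0, 0), (1, 0)}) with hA
    have hcl : ClosedU U A := closed_cl U _
    have hgr : ∀ i : ℕ, (((i : ℤ), 0) : ℤ × ℤ) ∈ A ∧ ((((i + 1 : ℕ) : ℤ), 0) : ℤ × ℤ) ∈ A := by
      intro i
      induction i with
      | zero =>
        refine ⟨subset_cl U _ (Or.inr ?_), subset_cl U _ (Or.inr ?_)⟩ <;> simp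
      | succ i ih =>
        refine ⟨ih.2, hcl R hR _ fun v hvR => ?_⟩
        rcases hv v hvR with rfl | rfl | rfl
        · exact subset_cl U _ (Or.inl (by simp))
        · have e : ((((i + 1 + 1 : ℕ) : ℤ), 0) : ℤ × ℤ) + (-1, 0) = (((i + 1 : ℕ) : ℤ), 0) := by
            rw [Prod.mk_add_mk]; push_cast; simp
          rw [e]; exact ih.2
        · have e : ((((i + 1 + 1 : ℕ) : ℤ), 0) : ℤ × ℤ) + (-2, 0) = ((i : ℤ), 0) := by
            rw [Prod.mk_add_mk]; push_cast; ring_nf
          rw [e]; exact ih.1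
    refine Set.infinite_of_injective_forall_mem (f := fun i : ℕ => (((i : ℤ), 0) : ℤ × ℤ)) ?_ ?_
    · intro i j h
      simp only [Prod.mk.injEq, and_true] at h
      omega
    · intro i
      exact ⟨(hgr i).1, by simp⟩
  have h3 : ({(0, 0), (1, 0)} : Set (ℤ × ℤ)).encard ≤ 2 :=
    (Set.encard_insert_le _ _).trans (by rw [Set.encard_singleton]; norm_num)
  exact (iInf₂_le _ ⟨h1, h2⟩).trans h3

theorem exists_nat_diff {U : Family} (hU : Shape U) : ∃ a : ℕ, diff U = a ∧ a ≤ 2 := by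
  have h := diff_le_two hU
  obtain ⟨a, ha⟩ := ENat.ne_top_iff_exists.1 (ne_top_of_le_ne_top (by simp) h)
  refine ⟨a, ha.symm, ?_⟩
  rw [← ha] at h
  exact_mod_cast h

/-- The reduction, with the shape of the families. -/
theorem exists_red_shape {L : Set (List Bool)} (hL : InEXPSPACE L) :
    ∃ U : List Bool → Family, NPC.Poly U ∧ (∀ x, IsFamily (U x)) ∧ (∀ x, Shape (U x)) ∧
      ∀ x, x ∈ L ↔ diff (U x) ≤ 1 := by
  obtain ⟨f, M, p, hf, hp⟩ := hL
  refine ⟨fun x => famM M (2 ^ p.eval x.length + Pool.Agent.H623R2.PS.maxDepth M.tm + 1) x,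
    poly_famM M ?_, fun x => isFamily_famM M _ x,
    fun x => shape_main fun r hr => (mem_rlM M r).1 hr, fun x => ?_⟩
  · exact NPC.Poly.add (NPC.Poly.add (NPC.Poly.npow (NPC.Poly.const 2)
      (UPoly.eval (UPoly.length NPC.Poly.id) p)) (NPC.Poly.const _)) (NPC.Poly.const 1)
  · rw [hf, diff_famM M (hp x)]

theorem foldr_max_le {l : List ℕ} {m : ℕ} (h : ∀ a ∈ l, a ≤ m) : l.foldr max 0 ≤ m := by
  induction l with
  | nil => exact Nat.zero_le _
  | cons a l ih =>
    rw [List.foldr_cons]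
    exact max_le (h a List.mem_cons_self) (ih fun b hb => h b (List.mem_cons_of_mem _ hb))

theorem natAbs_lt_sz (z : ℤ) : z.natAbs < 2 ^ sz z := by
  have h1 := size_natAbs_le_sz z
  have h2 : z.natAbs < 2 ^ z.natAbs.size := Nat.lt_size_self _
  exact h2.trans_le (Nat.pow_le_pow_right (by norm_num) (by omega))

theorem Dm_le (U : Family) : Dm U ≤ 2 ^ (sz U + 1) := by
  unfold Dm
  rw [pow_succ, mul_comm]
  refine Nat.mul_le_mul_right _ (foldr_max_le ?_)
  intro a ha
  obtain ⟨v, hv, rfl⟩ := List.mem_map.1 ha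
  obtain ⟨R, hR, hv⟩ := List.mem_flatten.1 hv
  have h1 := sz_le_of_mem hR
  have h2 := sz_le_of_mem hv
  have h3 : sz v = sz v.1 + sz v.2 + 1 := by
    conv_lhs => rw [← Prod.mk.eta (p := v)]
    rw [sz_pair]
  have h4 := natAbs_lt_sz v.1
  have h5 := natAbs_lt_sz v.2
  have h6 : 2 ^ sz v.1 ≤ 2 ^ sz U := Nat.pow_le_pow_right (by norm_num) (by omega)
  have h7 : 2 ^ sz v.2 ≤ 2 ^ sz U := Nat.pow_le_pow_right (by norm_num) (by omega)
  exact max_le (by omega) (by omega)

theorem sum_length_le (U : Family) : (U.map List.length).sum ≤ sz U := by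
  induction U with
  | nil => simp
  | cons R U ih =>
    have := length_lt_sz R
    rw [List.map_cons, List.sum_cons, sz_list_cons]
    omega

theorem normU_le (U : Family) : normU U ≤ ((sz U + 1) ^ 2 : ℕ) := by
  unfold normU
  have h1 : Real.log (Dm U) ≤ (sz U + 1 : ℕ) := by
    rcases Nat.eq_zero_or_pos (Dm U) with h | h
    · rw [h]
      simp only [Nat.cast_zero, Real.log_zero]
      positivity
    · have h2 : (Dm U : ℝ) ≤ (2 : ℝ) ^ (sz U + 1) := by exact_mod_cast Dm_le U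
      calc Real.log (Dm U) ≤ Real.log ((2 : ℝ) ^ (sz U + 1)) :=
            Real.log_le_log (by exact_mod_cast h) h2
        _ = (sz U + 1 : ℕ) * Real.log 2 := by rw [Real.log_pow]
        _ ≤ (sz U + 1 : ℕ) * 1 := by
            refine mul_le_mul_of_nonneg_left ?_ (by positivity)
            linarith [Real.log_two_lt_d9]
        _ = _ := mul_one _
  have h2 : (((U.map List.length).sum : ℕ) : ℝ) ≤ (sz U + 1 : ℕ) := by
    have := sum_length_le U
    exact_mod_cast this.trans (Nat.le_succ _)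
  calc Real.log (Dm U) * ((U.map List.length).sum : ℕ)
      ≤ (sz U + 1 : ℕ) * (sz U + 1 : ℕ) :=
        mul_le_mul h1 h2 (by positivity) (by positivity)
    _ = ((sz U + 1) ^ 2 : ℕ) := by push_cast; ring

theorem normU_nonneg (U : Family) : 0 ≤ normU U :=
  mul_nonneg (Real.log_natCast_nonneg _) (Nat.cast_nonneg _)

theorem exp_le_two_pow (m : ℕ) : Real.exp m ≤ 2 ^ (2 * m) := by
  have h1 : Real.exp 1 ≤ 4 := by linarith [Real.exp_one_lt_d9]
  calc Real.exp m = Real.exp 1 ^ m := by rw [← Real.exp_nat_mul, mul_one]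
    _ ≤ 4 ^ m := pow_le_pow_left₀ (Real.exp_pos 1).le h1 m
    _ = 2 ^ (2 * m) := by rw [pow_mul]; norm_num

/-- If the difficulty can be computed in time `exp (‖U‖ ^ O(1))`, then `EXPSPACE` is contained in
`EXPTIME`. -/
theorem exptime_of_fast {c : ℕ} (h : DiffInTime fun s => Real.exp (c * (s + 1) ^ c))
    {L : Set (List Bool)} (hL : InEXPSPACE L) : InEXPTIME L := by
  obtain ⟨U, hU, h1, h2, h3⟩ := exists_red_shape hL
  obtain ⟨tm, ia, oa, H⟩ := h
  obtain ⟨prog, P, hprog⟩ := sim_general tm ia oa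
  have hpc : PC (fun x : List Bool => x) (bits : Family → List Bool) U :=
    PC.comp (g := U) (f := fun x => x) hU PC.rawIn
  obtain ⟨s, hs⟩ := PC.length_le hpc
  obtain ⟨c1, P1, hc1⟩ := hpc
  obtain ⟨c3, P3, hc3⟩ : PC (bits : ℕ → List Bool) (fun x : List Bool => x)
      (fun a => [decide (a ≤ 1)]) :=
    PC.comp (g := fun b => [b]) (f := fun a : ℕ => decide (a ≤ 1)) PC.rawBool
      (NPC.Poly.decide_le NPC.Poly.id (NPC.Poly.const 1))
  choose a ha ha2 using fun x => exists_nat_diff (h2 x)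
  -- the number of steps
  have hsteps : ∀ x : List Bool, ∃ n : ℕ, n ≤ 2 ^ (2 * (c * ((s.eval x.length + 1) ^ 2 + 1) ^ c)) ∧
      Runs prog (inp (bits (U x))) (inp (bits (a x))) (P.eval ((bits (U x)).length + n)) := by
    intro x
    obtain ⟨n, hn, ⟨hout⟩⟩ := H (U x) (h1 x) (critical_shape (h2 x)) (a x) (ha x)
    obtain ⟨⟨n', hn'⟩, hle⟩ := hout
    refine ⟨n', ?_, hprog _ _ _ hn'⟩
    have hle' : n' ≤ n := hle
    have h5 : normU (U x) ≤ ((s.eval x.length + 1) ^ 2 : ℕ) := by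
      refine (normU_le (U x)).trans ?_
      have h6 := hs x
      rw [bits_length] at h6
      exact_mod_cast Nat.pow_le_pow_left (by omega) 2
    have h0 := normU_nonneg (U x)
    have h7 : (c : ℝ) * (normU (U x) + 1) ^ c ≤
        ((c * ((s.eval x.length + 1) ^ 2 + 1) ^ c : ℕ) : ℝ) := by
      push_cast
      refine mul_le_mul_of_nonneg_left ?_ (Nat.cast_nonneg c)
      refine pow_le_pow_left₀ (by linarith) ?_ c
      push_cast at h5
      linarith
    have h8 : (n' : ℝ) ≤ ((2 ^ (2 * (c * ((s.eval x.length + 1) ^ 2 + 1) ^ c)) : ℕ) : ℝ) := by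
      calc (n' : ℝ) ≤ n := by exact_mod_cast hle'
        _ ≤ _ := hn
        _ ≤ Real.exp ((c * ((s.eval x.length + 1) ^ 2 + 1) ^ c : ℕ) : ℝ) := Real.exp_le_exp.2 h7
        _ ≤ 2 ^ (2 * (c * ((s.eval x.length + 1) ^ 2 + 1) ^ c)) := exp_le_two_pow _
        _ = _ := by push_cast; rfl
    exact_mod_cast h8
  set w : Polynomial ℕ := Polynomial.C 2 * (Polynomial.C c * ((s + 1) ^ 2 + 1) ^ c) with hw
  have hweval : ∀ n, w.eval n = 2 * (c * ((s.eval n + 1) ^ 2 + 1) ^ c) := by
    intro n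
    simp [hw]
  refine inEXPTIME_of_runs (c := Cmd.seq (Cmd.seq c1 prog) c3)
    (V := fun x => [decide (a x ≤ 1)])
    (t := fun n => P1.eval n + P.eval (s.eval n + 2 ^ w.eval n) + P3.eval 9) ?_ ?_ ?_
  · intro x
    obtain ⟨n, hn, hr⟩ := hsteps x
    have e3 : Runs c3 (inp (bits (a x))) (inp [decide (a x ≤ 1)])
        (P3.eval (bits (a x)).length) := hc3 (a x)
    refine (((hc1 x).seq hr).seq e3).mono ?_
    have h4 : (bits (a x)).length ≤ 9 := by
      rw [bits_length]
      have h5 := sz_nat_le (a x)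
      have h6 : (a x).size ≤ 2 := by
        rw [Nat.size_le]
        have := ha2 x
        omega
      omega
    have h5 := eval_mono P3 h4
    have h6 : (bits (U x)).length + n ≤ s.eval x.length + 2 ^ w.eval x.length := by
      have := hs x
      rw [hweval]
      omega
    have h7 := eval_mono P h6
    beta_reduce
    omega
  · exact ((ExpB.poly P1).add (((ExpB.poly s).add (ExpB.pow2 w)).eval P)).add
      (ExpB.const _)
  · intro x
    rw [h3 x, ha x]
    simp

end Pool.Agent.U30.BP
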