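import Pool.Agent.U30.BP.Defs

/-!
# Finite stack machines, their runs as sets of facts, and local rules for these facts
-/

namespace Pool.Agent.U30.BP

open Function (update)

/-- The operations of a stack machine with controls `C`, stacks `K` and symbols `G`. -/
inductive FOp (C K G : Type)
  | stop
  | move (c : C)
  | push (k : K) (s : G) (c : C)
  | look (k : K) (b : Bool) (g : Option G → C)

/-- The kinds of facts (besides the anchor `none`). -/
inductive Ty (C K G : Type)
  | ctl (c : C)
  | cont (k : K) (v : Option G)
  | act (c : C) (o : Option G)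

instance {C K G : Type} [Finite C] [Finite K] [Finite G] : Finite (Ty C K G) := by
  have e : Ty C K G ≃ C ⊕ (K × Option G) ⊕ (C × Option G) :=
    { toFun := fun t => match t with
        | .ctl c => Sum.inl c
        | .cont k v => Sum.inr (Sum.inl (k, v))
        | .act c o => Sum.inr (Sum.inr (c, o))
      invFun := fun t => match t with
        | Sum.inl c => .ctl c
        | Sum.inr (Sum.inl (k, v)) => .cont k v
        | Sum.inr (Sum.inr (c, o)) => .act c o
      left_inv := fun t => by cases t <;> rfl
      right_inv := fun t => by rcases t with c | ⟨k, v⟩ | ⟨c, o⟩ <;> rfl }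
  exact Finite.of_equiv _ e.symm

section

variable {C K G : Type} [DecidableEq K]

/-- One step. -/
def fstep (op : C → FOp C K G) (x : C × (K → List G)) : Option (C × (K → List G)) :=
  match op x.1 with
  | .stop => none
  | .move c => some (c, x.2)
  | .push k s c => some (c, update x.2 k (s :: x.2 k))
  | .look k b g => some (g (x.2 k).head?, cond b (update x.2 k (x.2 k).tail) x.2)

/-- The next control. -/
def nxt : FOp C K G → Option G → Option C
  | .stop, _ => none
  | .move c, _ => some c
  | .push _ _ c, _ => some c
  | .look _ _ g, o => some (g o)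

/-- The shift of the contents of the stack `k`. -/
def sh : FOp C K G → Option G → K → ℤ
  | .push k _ _, _, k' => if k' = k then 1 else 0
  | .look k true _, some _, k' => if k' = k then -1 else 0
  | _, _, _ => 0

/-- `o` is the symbol read by the operation. -/
def VAct : FOp C K G → Option G → (K → List G) → Prop
  | .stop, _, _ => False
  | .move _, o, _ => o = none
  | .push _ _ _, o, _ => o = none
  | .look k _ _, o, S => o = (S k).head?

/-- The content of the cell `j` of the stack `k` is `v`, where `none` is the end marker. -/
def Cont (x : C × (K → List G)) (k : K) (j : ℕ) : Option G → Prop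
  | none => j = (x.2 k).length
  | some s => (x.2 k)[j]? = some s

/-- The facts which hold in a configuration. -/
def Fact (op : C → FOp C K G) (x : C × (K → List G)) (j : ℕ) : Option (Ty C K G) → Prop
  | none => ∃ k, j ≤ (x.2 k).length
  | some (.ctl c) => j = 0 ∧ c = x.1
  | some (.cont k v) => Cont x k j v
  | some (.act c o) => c = x.1 ∧ VAct (op x.1) o x.2 ∧ ∃ k, j ≤ (x.2 k).length

/-- A local rule: conclusion (`none` stands for acceptance) and premises; a premise is a pair of
shifts (time, cell) together with a kind of facts. -/
structure ARule (X : Type) where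
  /-- the conclusion -/
  concl : Option (Option X)
  /-- the premises -/
  prem : List (ℤ × ℤ × Option X)

/-- The local rules of a machine. -/
inductive IsRule (op : C → FOp C K G) (ac : C → Prop) (kf : K) (sf : G) : ARule (Ty C K G) → Prop
  | decM (c c' : C) (h : op c = .move c') : IsRule op ac kf sf
      ⟨some (some (.act c none)), [(0, 0, none), (0, 0, some (.ctl c))]⟩
  | decP (c : C) (k : K) (s : G) (c' : C) (h : op c = .push k s c') : IsRule op ac kf sf
      ⟨some (some (.act c none)), [(0, 0, none), (0, 0, some (.ctl c))]⟩
  | decL (c : C) (k : K) (b : Bool) (g : Option G → C) (o : Option G) (h : op c = .look k b g) :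
      IsRule op ac kf sf
      ⟨some (some (.act c o)), [(0, 0, none), (0, 0, some (.ctl c)), (0, 0, some (.cont k o))]⟩
  | prp (c : C) (o : Option G) : IsRule op ac kf sf
      ⟨some (some (.act c o)), [(0, 0, none), (0, -1, some (.act c o))]⟩
  | nx (c : C) (o : Option G) (c' : C) (w : Bool) (h : nxt (op c) o = some c') :
      IsRule op ac kf sf
      ⟨some (bif w then some (.ctl c') else none),
        [(-1, 0, none), (-1, 0, some (.ctl c)), (-1, 0, some (.act c o))]⟩
  | psh (c : C) (k : K) (s : G) (c' : C) (h : op c = .push k s c') : IsRule op ac kf sf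
      ⟨some (some (.cont k (some s))),
        [(-1, 0, none), (-1, 0, some (.ctl c)), (-1, 0, some (.act c none))]⟩
  | mv (c : C) (o : Option G) (k : K) (v : Option G) (w : Bool) : IsRule op ac kf sf
      ⟨some (bif w then some (.cont k v) else none),
        (-1, -sh (op c) o k, none) :: (-1, -sh (op c) o k, some (.act c o)) ::
        (-1, -sh (op c) o k, some (.cont k v)) ::
        (if sh (op c) o k = -1 then [(-1, -sh (op c) o k - 1, none)] else [])⟩
  | ac (c : C) (h : ac c) : IsRule op ac kf sf
      ⟨none, [(0, 0, none), (0, 0, some (.ctl c)), (0, 0, some (.cont kf (some sf)))]⟩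

theorem finite_isRule [Finite C] [Finite K] [Finite G] (op : C → FOp C K G) (ac : C → Prop)
    (kf : K) (sf : G) : {r | IsRule op ac kf sf r}.Finite := by
  refine Set.Finite.subset (s := Set.range (fun c : C =>
      (⟨some (some (.act c none)), [(0, 0, none), (0, 0, some (.ctl c))]⟩ : ARule (Ty C K G))) ∪
    Set.range (fun p : C × K × Option G =>
      (⟨some (some (.act p.1 p.2.2)), [(0, 0, none), (0, 0, some (.ctl p.1)),
        (0, 0, some (.cont p.2.1 p.2.2))]⟩ : ARule (Ty C K G))) ∪
    Set.range (fun p : C × Option G =>
      (⟨some (some (.act p.1 p.2)), [(0, 0, none), (0, -1, some (.act p.1 p.2))]⟩ :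
        ARule (Ty C K G))) ∪
    Set.range (fun p : C × Option G × C × Bool =>
      (⟨some (bif p.2.2.2 then some (.ctl p.2.2.1) else none),
        [(-1, 0, none), (-1, 0, some (.ctl p.1)), (-1, 0, some (.act p.1 p.2.1))]⟩ :
        ARule (Ty C K G))) ∪
    Set.range (fun p : C × K × G =>
      (⟨some (some (.cont p.2.1 (some p.2.2))),
        [(-1, 0, none), (-1, 0, some (.ctl p.1)), (-1, 0, some (.act p.1 none))]⟩ :
        ARule (Ty C K G))) ∪
    Set.range (fun p : C × Option G × K × Option G × Bool =>
      (⟨some (bif p.2.2.2.2 then some (.cont p.2.2.1 p.2.2.2.1) else none),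
        (-1, -sh (op p.1) p.2.1 p.2.2.1, none) ::
        (-1, -sh (op p.1) p.2.1 p.2.2.1, some (.act p.1 p.2.1)) ::
        (-1, -sh (op p.1) p.2.1 p.2.2.1, some (.cont p.2.2.1 p.2.2.2.1)) ::
        (if sh (op p.1) p.2.1 p.2.2.1 = -1 then
          [(-1, -sh (op p.1) p.2.1 p.2.2.1 - 1, none)] else [])⟩ : ARule (Ty C K G))) ∪
    Set.range (fun c : C =>
      (⟨none, [(0, 0, none), (0, 0, some (.ctl c)), (0, 0, some (.cont kf (some sf)))]⟩ :
        ARule (Ty C K G)))) ?_ ?_
  · exact ((((((Set.finite_range _).union (Set.finite_range _)).union (Set.finite_range _)).union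
      (Set.finite_range _)).union (Set.finite_range _)).union (Set.finite_range _)).union
      (Set.finite_range _)
  · intro r hr
    simp only [Set.mem_union, Set.mem_range]
    cases hr with
    | decM c c' h => exact Or.inl (Or.inl (Or.inl (Or.inl (Or.inl (Or.inl ⟨c, rfl⟩)))))
    | decP c k s c' h => exact Or.inl (Or.inl (Or.inl (Or.inl (Or.inl (Or.inl ⟨c, rfl⟩)))))
    | decL c k b g o h =>
      exact Or.inl (Or.inl (Or.inl (Or.inl (Or.inl (Or.inr ⟨(c, k, o), rfl⟩)))))
    | prp c o => exact Or.inl (Or.inl (Or.inl (Or.inl (Or.inr ⟨(c, o), rfl⟩))))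
    | nx c o c' w h => exact Or.inl (Or.inl (Or.inl (Or.inr ⟨(c, o, c', w), rfl⟩)))
    | psh c k s c' h => exact Or.inl (Or.inl (Or.inr ⟨(c, k, s), rfl⟩))
    | mv c o k v w => exact Or.inl (Or.inr ⟨(c, o, k, v, w), rfl⟩)
    | ac c h => exact Or.inr ⟨c, rfl⟩

/-- Every action comes from a step. -/
theorem step_of_vact {op : C → FOp C K G} {x : C × (K → List G)} {o : Option G}
    (h : VAct (op x.1) o x.2) : ∃ x', fstep op x = some x' ∧ nxt (op x.1) o = some x'.1 ∧
      (∀ k s c', op x.1 = .push k s c' → Cont x' k 0 (some s)) ∧
      (∀ k j v, Cont x k j v → (sh (op x.1) o k = -1 → 1 ≤ j) →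
        ∃ j' : ℕ, (j' : ℤ) = j + sh (op x.1) o k ∧ Cont x' k j' v) ∧
      (∀ k j v, Cont x' k j v → (∃ j' : ℕ, (j' : ℤ) = j - sh (op x.1) o k ∧ Cont x k j' v) ∨
        ∃ s c', op x.1 = .push k s c' ∧ v = some s ∧ j = 0) := by
  unfold fstep
  cases hop : op x.1 with
  | stop => rw [hop] at h; exact h.elim
  | move c =>
    refine ⟨_, rfl, rfl, ?_, ?_, ?_⟩
    · intro k s c' h; cases h
    · intro k j v hv _
      exact ⟨j, by simp [sh], hv⟩
    · intro k j v hv
      exact Or.inl ⟨j, by simp [sh], hv⟩
  | push k s c =>
    refine ⟨_, rfl, rfl, ?_, ?_, ?_⟩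
    · intro k' s' c' h
      cases h
      simp [Cont]
    · intro k' j v hv _
      by_cases hk : k' = k
      · subst hk
        refine ⟨j + 1, by simp [sh], ?_⟩
        cases v with
        | none =>
          simp only [Cont, Function.update_self, List.length_cons] at hv ⊢
          omega
        | some s' =>
          simp only [Cont, Function.update_self, List.getElem?_cons_succ] at hv ⊢
          exact hv
      · refine ⟨j, by simp [sh, hk], ?_⟩
        cases v <;> simpa [Cont, hk] using hv
    · intro k' j v hv
      by_cases hk : k' = k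
      · subst hk
        cases v with
        | none =>
          left
          simp only [Cont, Function.update_self, List.length_cons] at hv
          exact ⟨(x.2 k').length, by simp [sh, hv], rfl⟩
        | some s' =>
          cases j with
          | zero =>
            right
            simp only [Cont, Function.update_self, List.getElem?_cons_zero,
              Option.some.injEq] at hv
            exact ⟨s, c, rfl, by rw [hv], rfl⟩
          | succ j =>
            left
            simp only [Cont, Function.update_self, List.getElem?_cons_succ] at hv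
            exact ⟨j, by simp [sh], hv⟩
      · left
        refine ⟨j, by simp [sh, hk], ?_⟩
        cases v <;> simpa [Cont, hk] using hv
  | look k b g =>
    rw [hop] at h
    have ho : o = (x.2 k).head? := h
    subst ho
    refine ⟨_, rfl, rfl, ?_, ?_, ?_⟩
    · intro k' s' c' h
      cases h
    · intro k' j v hv hj
      cases b with
      | false =>
        refine ⟨j, by simp [sh], ?_⟩
        simpa [Cont] using hv
      | true =>
        by_cases hk : k' = k
        · subst hk
          cases hx : x.2 k' with
          | nil =>
            refine ⟨j, by simp [sh], ?_⟩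
            cases v <;> simpa [Cont, hx] using hv
          | cons a l =>
            have hj' : 1 ≤ j := hj (by simp [sh, hx])
            obtain ⟨j, rfl⟩ := Nat.exists_eq_add_of_le' hj'
            refine ⟨j, by simp [sh], ?_⟩
            cases v with
            | none =>
              simp only [Cont, hx, List.length_cons, cond_true, Function.update_self,
                List.tail_cons] at hv ⊢
              omega
            | some s' =>
              simpa [Cont, hx] using hv
        · refine ⟨j, ?_, ?_⟩
          · cases (x.2 k).head? <;> simp [sh, hk]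
          · cases v <;> simpa [Cont, hk] using hv
    · intro k' j v hv
      left
      cases b with
      | false =>
        refine ⟨j, by simp [sh], ?_⟩
        simpa [Cont] using hv
      | true =>
        by_cases hk : k' = k
        · subst hk
          cases hx : x.2 k' with
          | nil =>
            refine ⟨j, by simp [sh], ?_⟩
            cases v <;> simpa [Cont, hx] using hv
          | cons a l =>
            refine ⟨j + 1, by simp [sh], ?_⟩
            cases v with
            | none =>
              simp only [Cont, hx, List.length_cons, cond_true, Function.update_self,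
                List.tail_cons] at hv ⊢
              omega
            | some s' =>
              simpa [Cont, hx] using hv
        · refine ⟨j, ?_, ?_⟩
          · cases (x.2 k).head? <;> simp [sh, hk]
          · cases v <;> simpa [Cont, hk] using hv

omit [DecidableEq K] in
theorem cont_le {x : C × (K → List G)} {k : K} {j : ℕ} {v : Option G} (h : Cont x k j v) :
    j ≤ (x.2 k).length := by
  cases v with
  | none => exact h.le
  | some s => exact (List.getElem?_eq_some_iff.1 h).1.le

omit [DecidableEq K] in
theorem exists_cont (x : C × (K → List G)) (k : K) {j : ℕ} (h : j ≤ (x.2 k).length) :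
    ∃ v, Cont x k j v := by
  rcases h.lt_or_eq with h | h
  · exact ⟨some ((x.2 k)[j]), List.getElem?_eq_getElem h⟩
  · exact ⟨none, h⟩

/-- The configuration after `n` steps. -/
def run (op : C → FOp C K G) (x₀ : C × (K → List G)) : ℕ → Option (C × (K → List G))
  | 0 => some x₀
  | n + 1 => (run op x₀ n).bind (fstep op)

/-- The facts about a run. -/
def DF (op : C → FOp C K G) (x₀ : C × (K → List G)) (t j : ℤ) (τ : Option (Ty C K G)) : Prop :=
  ∃ (n m : ℕ) (x : C × (K → List G)), t = n ∧ j = m ∧ run op x₀ n = some x ∧ Fact op x m τ

/-- The run reaches an accepting configuration. -/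
def Acc (op : C → FOp C K G) (ac : C → Prop) (kf : K) (sf : G) (x₀ : C × (K → List G)) : Prop :=
  ∃ (n : ℕ) (x : C × (K → List G)), run op x₀ n = some x ∧ ac x.1 ∧ (x.2 kf)[0]? = some sf

/-- The facts about the run are closed under the rules. -/
theorem closed_DF {op : C → FOp C K G} {ac : C → Prop} {kf : K} {sf : G} {x₀ : C × (K → List G)}
    {r : ARule (Ty C K G)} (hr : IsRule op ac kf sf r) {t j : ℤ}
    (h : ∀ p ∈ r.prem, DF op x₀ (t + p.1) (j + p.2.1) p.2.2) :
    match r.concl with
    | some τ => DF op x₀ t j τ
    | none => Acc op ac kf sf x₀ := by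
  cases hr with
  | decM c c' hc =>
    obtain ⟨n, m, x, rfl', hm, hx, k, hk⟩ := h (0, 0, none) (by simp)
    obtain ⟨n', m', x', hn', hm', hx', h1, h2⟩ := h (0, 0, some (.ctl c)) (by simp)
    simp only [add_zero] at *
    have e1 : n = n' := by omega
    have e2 : m = m' := by omega
    subst e1 e2
    have e3 : x = x' := by rw [hx] at hx'; exact Option.some.inj hx'
    subst e3
    subst h2
    refine ⟨n, m, x, rfl', hm, hx, rfl, ?_, k, hk⟩
    rw [hc]
    rfl
  | decP c k' s c' hc =>
    obtain ⟨n, m, x, rfl', hm, hx, k, hk⟩ := h (0, 0, none) (by simp)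
    obtain ⟨n', m', x', hn', hm', hx', h1, h2⟩ := h (0, 0, some (.ctl c)) (by simp)
    simp only [add_zero] at *
    have e1 : n = n' := by omega
    have e2 : m = m' := by omega
    subst e1 e2
    have e3 : x = x' := by rw [hx] at hx'; exact Option.some.inj hx'
    subst e3
    subst h2
    refine ⟨n, m, x, rfl', hm, hx, rfl, ?_, k, hk⟩
    rw [hc]
    rfl
  | decL c k' b g o hc =>
    obtain ⟨n, m, x, rfl', hm, hx, k, hk⟩ := h (0, 0, none) (by simp)
    obtain ⟨n', m', x', hn', hm', hx', h1, h2⟩ := h (0, 0, some (.ctl c)) (by simp)
    obtain ⟨n'', m'', x'', hn'', hm'', hx'', h3⟩ := h (0, 0, some (.cont k' o)) (by simp)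
    simp only [add_zero] at *
    have e1 : n = n' := by omega
    have e2 : m = m' := by omega
    have e4 : n = n'' := by omega
    have e5 : m = m'' := by omega
    subst e1 e2 e4 e5
    have e3 : x = x' := by rw [hx] at hx'; exact Option.some.inj hx'
    have e6 : x = x'' := by rw [hx] at hx''; exact Option.some.inj hx''
    subst e3 e6
    subst h2 h1
    refine ⟨n, 0, x, rfl', hm, hx, rfl, ?_, k, hk⟩
    rw [hc]
    show o = (x.2 k').head?
    cases o with
    | none =>
      have h4 : 0 = (x.2 k').length := h3
      rw [List.length_eq_zero_iff.1 h4.symm]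
      rfl
    | some s =>
      have h4 : (x.2 k')[0]? = some s := h3
      rw [← h4, List.head?_eq_getElem?]
  | prp c o =>
    obtain ⟨n, m, x, rfl', hm, hx, k, hk⟩ := h (0, 0, none) (by simp)
    obtain ⟨n', m', x', hn', hm', hx', h1, h2, h3⟩ := h (0, -1, some (.act c o)) (by simp)
    simp only [add_zero] at *
    have e1 : n = n' := by omega
    subst e1
    have e3 : x = x' := by rw [hx] at hx'; exact Option.some.inj hx'
    subst e3
    exact ⟨n, m, x, rfl', hm, hx, h1, h2, k, hk⟩
  | nx c o c' w hc =>
    obtain ⟨n, m, x, hn, hm, hx, k, hk⟩ := h (-1, 0, none) (by simp)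
    obtain ⟨n', m', x', hn', hm', hx', h1, h2⟩ := h (-1, 0, some (.ctl c)) (by simp)
    obtain ⟨n'', m'', x'', hn'', hm'', hx'', h3, h4, h5⟩ := h (-1, 0, some (.act c o)) (by simp)
    simp only [add_zero] at *
    have e1 : n = n' := by omega
    have e2 : m = m' := by omega
    have e4 : n = n'' := by omega
    have e5 : m = m'' := by omega
    subst e1 e2 e4 e5
    have e3 : x = x' := by rw [hx] at hx'; exact Option.some.inj hx'
    have e6 : x = x'' := by rw [hx] at hx''; exact Option.some.inj hx''
    subst e3 e6
    subst h2 h1
    obtain ⟨y, hy1, hy2, _⟩ := step_of_vact h4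
    rw [hc] at hy2
    have hy3 : c' = y.1 := Option.some.inj hy2
    subst hy3
    refine ⟨n + 1, 0, y, by push_cast; omega, hm, ?_, ?_⟩
    · rw [run, hx]; exact hy1
    · cases w with
      | false => exact ⟨k, Nat.zero_le _⟩
      | true => exact ⟨rfl, rfl⟩
  | psh c k' s c' hc =>
    obtain ⟨n, m, x, hn, hm, hx, k, hk⟩ := h (-1, 0, none) (by simp)
    obtain ⟨n', m', x', hn', hm', hx', h1, h2⟩ := h (-1, 0, some (.ctl c)) (by simp)
    obtain ⟨n'', m'', x'', hn'', hm'', hx'', h3, h4, h5⟩ := h (-1, 0, some (.act c none)) (by simp)
    simp only [add_zero] at *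
    have e1 : n = n' := by omega
    have e2 : m = m' := by omega
    have e4 : n = n'' := by omega
    have e5 : m = m'' := by omega
    subst e1 e2 e4 e5
    have e3 : x = x' := by rw [hx] at hx'; exact Option.some.inj hx'
    have e6 : x = x'' := by rw [hx] at hx''; exact Option.some.inj hx''
    subst e3 e6
    subst h2 h1
    obtain ⟨y, hy1, hy2, hy3, _⟩ := step_of_vact h4
    refine ⟨n + 1, 0, y, by push_cast; omega, hm, ?_, hy3 k' s c' hc⟩
    rw [run, hx]; exact hy1
  | mv c o k' v w =>
    set δ := sh (op c) o k' with hδ
    obtain ⟨n'', m'', x'', hn'', hm'', hx'', h3, h4, h5⟩ :=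
      h (-1, -δ, some (.act c o)) (by simp)
    obtain ⟨n, m, x, hn, hm, hx, h6⟩ := h (-1, -δ, some (.cont k' v)) (by simp)
    simp only at hn hm hn'' hm''
    have e4 : n = n'' := by omega
    have e5 : m = m'' := by omega
    subst e4 e5
    have e6 : x = x'' := by rw [hx] at hx''; exact Option.some.inj hx''
    subst e6
    subst h3
    obtain ⟨y, hy1, hy2, hy3, hy4, _⟩ := step_of_vact h4
    have h7 : sh (op x.1) o k' = -1 → 1 ≤ m := by
      intro h8
      obtain ⟨n₁, m₁, x₁, hn₁, hm₁, hx₁, _⟩ := h (-1, -δ - 1, none) (by
        simp only [List.mem_cons, List.mem_ite_nil_right]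
        right; right; right
        refine ⟨h8, ?_⟩
        simp [δ])
      simp only at hm hm₁
      omega
    obtain ⟨j', hj', hc'⟩ := hy4 k' m v h6 h7
    refine ⟨n + 1, j', y, by push_cast; omega, ?_, ?_, ?_⟩
    · rw [hj', ← hδ]
      omega
    · rw [run, hx]; exact hy1
    · cases w with
      | false => exact ⟨k', cont_le hc'⟩
      | true => exact hc'
  | ac c hc =>
    obtain ⟨n', m', x', hn', hm', hx', h1, h2⟩ := h (0, 0, some (.ctl c)) (by simp)
    obtain ⟨n'', m'', x'', hn'', hm'', hx'', h3⟩ := h (0, 0, some (.cont kf (some sf))) (by simp)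
    simp only at hn' hm' hn'' hm''
    have e4 : n' = n'' := by omega
    have e5 : m' = m'' := by omega
    subst e4 e5
    have e6 : x' = x'' := by rw [hx'] at hx''; exact Option.some.inj hx''
    subst e6
    subst h2 h1
    exact ⟨n', x', hx', hc, h3⟩

/-- All facts about the run can be derived from those about the initial configuration. -/
theorem derive_DF {op : C → FOp C K G} {ac : C → Prop} {kf : K} {sf : G} {x₀ : C × (K → List G)}
    {P : ℤ → ℤ → Option (Ty C K G) → Prop}
    (h0 : ∀ (m : ℕ) τ, (∀ c o, τ ≠ some (.act c o)) → Fact op x₀ m τ → P 0 m τ)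
    (hP : ∀ r, IsRule op ac kf sf r → ∀ τ, r.concl = some τ → ∀ t j : ℤ,
      (∀ p ∈ r.prem, P (t + p.1) (j + p.2.1) p.2.2) → P t j τ) :
    ∀ (n m : ℕ) x τ, run op x₀ n = some x → Fact op x m τ → P n m τ := by
  -- all facts, given the facts which are not actions
  have hact : ∀ (n : ℕ) x, run op x₀ n = some x →
      (∀ (m : ℕ) τ, (∀ c o, τ ≠ some (.act c o)) → Fact op x m τ → P n m τ) →
      ∀ (m : ℕ) τ, Fact op x m τ → P n m τ := by
    intro n x _ hx m τ hτ
    by_cases hno : ∀ c o, τ ≠ some (.act c o)
    · exact hx m τ hno hτ
    · push Not at hno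
      obtain ⟨c, o, rfl⟩ := hno
      obtain ⟨rfl, h2, k, hk⟩ := hτ
      induction m with
      | zero =>
        have s1 : P n (0 : ℕ) none := hx 0 none (by simp) ⟨k, hk⟩
        have s2 : P n (0 : ℕ) (some (.ctl x.1)) := hx 0 _ (by simp) ⟨rfl, rfl⟩
        cases hop : op x.1 with
        | stop => rw [hop] at h2; exact h2.elim
        | move c' =>
          rw [hop] at h2
          have ho : o = none := h2
          subst ho
          refine hP _ (.decM x.1 c' hop) _ rfl _ _ ?_
          intro p hp
          simp only [List.mem_cons, List.not_mem_nil, or_false] at hp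
          rcases hp with rfl | rfl
          · simpa using s1
          · simpa using s2
        | push k' s c' =>
          rw [hop] at h2
          have ho : o = none := h2
          subst ho
          refine hP _ (.decP x.1 k' s c' hop) _ rfl _ _ ?_
          intro p hp
          simp only [List.mem_cons, List.not_mem_nil, or_false] at hp
          rcases hp with rfl | rfl
          · simpa using s1
          · simpa using s2
        | look k' b g =>
          rw [hop] at h2
          have ho : o = (x.2 k').head? := h2
          have s3 : P n (0 : ℕ) (some (.cont k' o)) := by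
            refine hx 0 _ (by simp) ?_
            show Cont x k' 0 o
            subst ho
            cases hh : x.2 k' with
            | nil => simp [Cont, hh]
            | cons a l => simp [Cont, hh]
          refine hP _ (.decL x.1 k' b g o hop) _ rfl _ _ ?_
          intro p hp
          simp only [List.mem_cons, List.not_mem_nil, or_false] at hp
          rcases hp with rfl | rfl | rfl
          · simpa using s1
          · simpa using s2
          · simpa using s3
      | succ m ih =>
        have s1 : P n (m + 1 : ℕ) none := hx (m + 1) none (by simp) ⟨k, hk⟩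
        have s2 := ih (by omega)
        refine hP _ (.prp x.1 o) _ rfl _ _ ?_
        intro p hp
        simp only [List.mem_cons, List.not_mem_nil, or_false] at hp
        rcases hp with rfl | rfl
        · simpa using s1
        · simpa using s2
  intro n
  induction n with
  | zero =>
    intro m x τ hx hτ
    have : x₀ = x := Option.some.inj hx
    subst this
    exact hact 0 x₀ rfl (by simpa using h0) m τ hτ
  | succ n ih =>
    intro m y τ hy hτ
    rw [run] at hy
    obtain ⟨x, hx, hxy⟩ := Option.bind_eq_some_iff.1 hy
    have hy' : run op x₀ (n + 1) = some y := by rw [run]; exact hy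
    refine hact (n + 1) y hy' ?_ m τ hτ
    clear hτ τ m
    -- the action
    have hV : ∃ o, VAct (op x.1) o x.2 := by
      cases hop : op x.1 with
      | stop => rw [fstep, hop] at hxy; cases hxy
      | move c => exact ⟨none, rfl⟩
      | push k s c => exact ⟨none, rfl⟩
      | look k b g => exact ⟨_, rfl⟩
    obtain ⟨o, hV⟩ := hV
    obtain ⟨y', hy1, hy2, hy3, hy4, hy5⟩ := step_of_vact hV
    have e : y' = y := by rw [hxy] at hy1; exact (Option.some.inj hy1).symm
    subst e
    -- control and anchor
    have hnx : ∀ w : Bool, (∃ k : K, True) → P (n + 1 : ℕ) (0 : ℕ)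
        (bif w then some (.ctl y'.1) else none) := by
      rintro w ⟨k, _⟩
      have s1 : P n (0 : ℕ) none := ih 0 x none hx ⟨k, Nat.zero_le _⟩
      have s2 : P n (0 : ℕ) (some (.ctl x.1)) := ih 0 x _ hx ⟨rfl, rfl⟩
      have s3 : P n (0 : ℕ) (some (.act x.1 o)) := ih 0 x _ hx ⟨rfl, hV, k, Nat.zero_le _⟩
      refine hP _ (.nx x.1 o y'.1 w hy2) _ rfl _ _ ?_
      intro p hp
      simp only [List.mem_cons, List.not_mem_nil, or_false] at hp
      rcases hp with rfl | rfl | rfl
      · simpa using s1
      · simpa using s2
      · simpa using s3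
    have hmv : ∀ (k : K) (j : ℕ) (v : Option G), Cont y' k j v →
        P (n + 1 : ℕ) j (some (.cont k v)) ∧ P (n + 1 : ℕ) j none := by
      intro k j v hv
      rcases hy5 k j v hv with ⟨j', hj', hc⟩ | ⟨s, c', hop, rfl, rfl⟩
      · have key : ∀ w : Bool, P (n + 1 : ℕ) j (bif w then some (.cont k v) else none) := by
          intro w
          refine hP _ (.mv x.1 o k v w) _ rfl _ _ ?_
          have e1 : ((n + 1 : ℕ) : ℤ) + (-1) = n := by push_cast; ring
          have e2 : (j : ℤ) + -sh (op x.1) o k = j' := by rw [hj']; ring
          intro p hp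
          simp only [List.mem_cons, List.mem_ite_nil_right, List.not_mem_nil, or_false] at hp
          rcases hp with rfl | rfl | rfl | ⟨h8, rfl⟩
          · show P (_ + (-1)) (_ + _) none
            rw [e1, e2]
            exact ih j' x none hx ⟨k, cont_le hc⟩
          · show P (_ + (-1)) (_ + _) _
            rw [e1, e2]
            exact ih j' x _ hx ⟨rfl, hV, k, cont_le hc⟩
          · show P (_ + (-1)) (_ + _) _
            rw [e1, e2]
            exact ih j' x _ hx hc
          · show P (_ + (-1)) (_ + (_ - 1)) _
            have e3 : (j : ℤ) + (-sh (op x.1) o k - 1) = j := by rw [h8]; ring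
            rw [e1, e3]
            refine ih j x none hx ⟨k, ?_⟩
            have := cont_le hc
            rw [h8] at hj'
            omega
        exact ⟨key true, key false⟩
      · refine ⟨?_, by simpa using hnx false ⟨k, trivial⟩⟩
        have s1 : P n (0 : ℕ) none := ih 0 x none hx ⟨k, Nat.zero_le _⟩
        have s2 : P n (0 : ℕ) (some (.ctl x.1)) := ih 0 x _ hx ⟨rfl, rfl⟩
        have ho : o = none := by rw [hop] at hV; exact hV
        have s3 : P n (0 : ℕ) (some (.act x.1 none)) := by
          rw [ho] at hV
          exact ih 0 x _ hx ⟨rfl, hV, k, Nat.zero_le _⟩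
        refine hP _ (.psh x.1 k s c' hop) _ rfl _ _ ?_
        intro p hp
        simp only [List.mem_cons, List.not_mem_nil, or_false] at hp
        rcases hp with rfl | rfl | rfl
        · simpa using s1
        · simpa using s2
        · simpa using s3
    intro m τ hno hτ
    match τ, hno, hτ with
    | none, _, ⟨k, hk⟩ =>
      obtain ⟨v, hv⟩ := exists_cont y' k hk
      exact (hmv k m v hv).2
    | some (.ctl c), _, ⟨h1, h2⟩ =>
      subst h1 h2
      -- there is a stack, since there are facts about anchors
      exact hnx true ⟨Classical.choice (by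
        by_contra hne
        exact hne ⟨kf⟩), trivial⟩
    | some (.cont k v), _, hτ => exact (hmv k m v hτ).1
    | some (.act c o), hno, _ => exact absurd rfl (hno c o)

end

end Pool.Agent.U30.BP
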