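import Pool.Agent.U30.BP.Emb

/-!
# The family of a machine: its difficulty is at most `1` if and only if the machine accepts
-/

namespace Pool.Agent.U30.BP

section

variable {C K G : Type} [DecidableEq K]

omit [DecidableEq K] in
theorem sh_bound [DecidableEq K] (o : FOp C K G) (v : Option G) (k : K) :
    -1 ≤ sh o v k ∧ sh o v k ≤ 1 := by
  cases o with
  | stop => simp [sh]
  | move c => simp [sh]
  | push k' s c => simp only [sh]; split <;> omega
  | look k' b g =>
    cases b <;> cases v <;> simp only [sh] <;> first | omega | (split <;> omega)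

theorem isRule_anchored {op : C → FOp C K G} {ac : C → Prop} {kf : K} {sf : G}
    {r : ARule (Ty C K G)} (hr : IsRule op ac kf sf r) : Anchored r := by
  cases hr with
  | decM c c' h =>
    refine ⟨⟨0, 0, by simp⟩, ⟨0, 0, .ctl c, by simp⟩, ?_⟩
    simp
  | decP c k s c' h =>
    refine ⟨⟨0, 0, by simp⟩, ⟨0, 0, .ctl c, by simp⟩, ?_⟩
    simp
  | decL c k b g o h =>
    refine ⟨⟨0, 0, by simp⟩, ⟨0, 0, .ctl c, by simp⟩, ?_⟩
    simp
  | prp c o =>
    refine ⟨⟨0, 0, by simp⟩, ⟨0, -1, .act c o, by simp⟩, ?_⟩
    simp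
  | nx c o c' w h =>
    refine ⟨⟨-1, 0, by simp⟩, ⟨-1, 0, .ctl c, by simp⟩, ?_⟩
    simp
  | psh c k s c' h =>
    refine ⟨⟨-1, 0, by simp⟩, ⟨-1, 0, .ctl c, by simp⟩, ?_⟩
    simp
  | mv c o k v w =>
    refine ⟨⟨-1, -sh (op c) o k, by simp⟩, ⟨-1, -sh (op c) o k, .act c o, by simp⟩, ?_⟩
    obtain ⟨h1, h2⟩ := sh_bound (op c) o k
    intro p hp
    simp only [List.mem_cons, List.mem_ite_nil_right, List.not_mem_nil, or_false] at hp
    rcases hp with rfl | rfl | rfl | ⟨h8, rfl⟩
    · simp only; omega
    · simp only; omega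
    · simp only; omega
    · simp only; omega
  | ac c h =>
    refine ⟨⟨0, 0, by simp⟩, ⟨0, 0, .ctl c, by simp⟩, ?_⟩
    simp

theorem isRule_nonSelf {op : C → FOp C K G} {ac : C → Prop} {kf : K} {sf : G}
    {r : ARule (Ty C K G)} (hr : IsRule op ac kf sf r) : NonSelf r := by
  cases hr with
  | decM c c' h => intro p hp; simp at hp; rcases hp with rfl | rfl <;> simp
  | decP c k s c' h => intro p hp; simp at hp; rcases hp with rfl | rfl <;> simp
  | decL c k b g o h => intro p hp; simp at hp; rcases hp with rfl | rfl | rfl <;> simp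
  | prp c o => intro p hp; simp at hp; rcases hp with rfl | rfl <;> simp
  | nx c o c' w h => intro p hp; simp at hp; rcases hp with rfl | rfl | rfl <;> simp
  | psh c k s c' h => intro p hp; simp at hp; rcases hp with rfl | rfl | rfl <;> simp
  | mv c o k v w =>
    intro p hp h1
    simp only [List.mem_cons, List.mem_ite_nil_right, List.not_mem_nil, or_false] at hp
    rcases hp with rfl | rfl | rfl | ⟨h8, rfl⟩ <;> simp at h1
  | ac c h => intro p hp; simp

theorem fact_le {op : C → FOp C K G} {x : C × (K → List G)} {B : ℕ}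
    (hB : ∀ k, (x.2 k).length ≤ B) {m : ℕ} {τ : Option (Ty C K G)} (h : Fact op x m τ) :
    m ≤ B := by
  match τ, h with
  | none, ⟨k, hk⟩ => exact hk.trans (hB k)
  | some (.ctl c), ⟨h1, _⟩ => omega
  | some (.cont k v), h => exact (cont_le h).trans (hB k)
  | some (.act c o), ⟨_, _, k, hk⟩ => exact hk.trans (hB k)

/-- Beyond a halting configuration there are no configurations. -/
theorem run_none {op : C → FOp C K G} {x₀ : C × (K → List G)} {N : ℕ}
    (h : run op x₀ N = none) {n : ℕ} (hn : N ≤ n) : run op x₀ n = none := by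
  induction hn with
  | refl => exact h
  | step _ ih => rw [run, ih]; rfl

variable {n B : ℕ} {idx : Ty C K G → ℕ} {op : C → FOp C K G} {ac : C → Prop} {kf : K} {sf : G}
  {x₀ : C × (K → List G)} {rl : List (ARule (Ty C K G))} {init : List ℤ}

/-- The list of the positions of the initial facts. -/
def IsInit (n B : ℕ) (idx : Ty C K G → ℕ) (op : C → FOp C K G) (x₀ : C × (K → List G))
    (init : List ℤ) : Prop :=
  ∀ a, a ∈ init ↔ ∃ (m : ℕ) (τ : Option (Ty C K G)), (∀ c o, τ ≠ some (.act c o)) ∧
    Fact op x₀ m τ ∧ a = pos n B 0 m (code n idx τ)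

theorem shape_main (hrl : ∀ r, r ∈ rl → IsRule op ac kf sf r) :
    Shape (norm (fam0 (rl.map (offs n B idx)) init)) := by
  refine shape_fam fun l hl => ?_
  obtain ⟨r, hr, rfl⟩ := List.mem_map.1 hl
  obtain ⟨⟨a, b, h⟩, _⟩ := isRule_anchored (hrl r hr)
  exact List.ne_nil_of_mem (List.mem_map_of_mem h)

theorem isFamily_main (hlt : ∀ y, idx y < n) (hinj : Function.Injective idx) (hn : 0 < n)
    (hrl : ∀ r, r ∈ rl → IsRule op ac kf sf r) :
    IsFamily (norm (fam0 (rl.map (offs n B idx)) init)) := by
  refine isFamily_fam fun l hl => ?_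
  obtain ⟨r, hr, rfl⟩ := List.mem_map.1 hl
  exact offs_ne_zero hlt hinj hn (isRule_anchored (hrl r hr)) (isRule_nonSelf (hrl r hr))

omit [DecidableEq K] in
theorem code_pos_add (t j t' j' c c' d : ℤ) :
    pos n B t j d + (pos n B t' j' c' - d) = pos n B (t + t') (j + j') c' := by
  unfold pos; ring

/-- If the machine accepts, one site suffices. -/
theorem accept (hrl : ∀ r, IsRule op ac kf sf r → r ∈ rl) (hinit : IsInit n B idx op x₀ init)
    (hacc : Acc op ac kf sf x₀) :
    (cl (norm (fam0 (rl.map (offs n B idx)) init)) ({x | x.2 < 0} ∪ {(0, 1)}) \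
      {x | x.2 < 0}).Infinite := by
  set U := norm (fam0 (rl.map (offs n B idx)) init) with hU
  set A := cl U ({x | x.2 < 0} ∪ {(0, 1)}) with hA
  have hcl : ClosedU (fam0 (rl.map (offs n B idx)) init) A := closedU_norm.1 (closed_cl U _)
  have hhalf : ∀ x : ℤ × ℤ, x.2 < 0 → x ∈ A := fun x hx => subset_cl U _ (Or.inl hx)
  have hz : ((0, 1) : ℤ × ℤ) ∈ A := subset_cl U _ (Or.inr rfl)
  have hseed : ∀ a ∈ init, ((a, 0) : ℤ × ℤ) ∈ A := by
    intro a ha
    refine hcl (seedR a) ?_ (a, 0) ?_
    · simp only [fam0, List.mem_cons, List.mem_append, List.mem_map]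
      exact Or.inr (Or.inr (Or.inr ⟨a, ha, rfl⟩))
    · intro v hv
      simp only [seedR, List.mem_cons, List.not_mem_nil, or_false] at hv
      rcases hv with rfl | rfl
      · exact hhalf _ (by simp)
      · simpa using hz
  have hrow : ∀ r, IsRule op ac kf sf r → ∀ t j : ℤ,
      (∀ p ∈ r.prem, ((pos n B (t + p.1) (j + p.2.1) (code n idx p.2.2), 0) : ℤ × ℤ) ∈ A) →
      ((pos n B t j (ccode n idx r.concl), 0) : ℤ × ℤ) ∈ A := by
    intro r hr t j h
    refine hcl (rowR (offs n B idx r)) ?_ _ ?_
    · simp only [fam0, List.mem_cons, List.mem_append, List.mem_map]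
      exact Or.inr (Or.inr (Or.inl ⟨_, ⟨r, hrl r hr, rfl⟩, rfl⟩))
    · intro v hv
      simp only [rowR, List.mem_cons, List.mem_map, offs] at hv
      rcases hv with rfl | ⟨o, ⟨p, hp, rfl⟩, rfl⟩
      · exact hhalf _ (by simp)
      · have := h p hp
        rw [Prod.mk_add_mk, add_zero, code_pos_add (t := t) (j := j) (c := 0)]
        exact this
  have hfacts := derive_DF (op := op) (ac := ac) (kf := kf) (sf := sf) (x₀ := x₀)
    (P := fun t j τ => ((pos n B t j (code n idx τ), 0) : ℤ × ℤ) ∈ A)
    (fun m τ hτ hf => hseed _ ((hinit _).2 ⟨m, τ, hτ, hf, rfl⟩))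
    (fun r hr τ hτ t j h => by
      have := hrow r hr t j h
      rwa [hτ] at this)
  obtain ⟨N, x, hx, h1, h2⟩ := hacc
  have f1 := hfacts N 0 x none hx ⟨kf, Nat.zero_le _⟩
  have f2 := hfacts N 0 x (some (.ctl x.1)) hx ⟨rfl, rfl⟩
  have f3 := hfacts N 0 x (some (.cont kf (some sf))) hx h2
  have f4 := hrow _ (.ac x.1 h1) N 0 (by
    intro p hp
    simp only [List.mem_cons, List.not_mem_nil, or_false] at hp
    rcases hp with rfl | rfl | rfl
    · simpa using f1
    · simpa using f2
    · simpa using f3)
  have e0 : pos n B (N : ℤ) 0 (ccode n idx (none : Option (Option (Ty C K G)))) =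
    pos n B N 0 0 + 1 := by unfold pos ccode; ring
  have e1 : pos n B (N : ℤ) ((0 : ℕ) : ℤ) (code n idx (none : Option (Ty C K G))) =
    pos n B N 0 0 := by unfold pos code; push_cast; ring
  rw [e1] at f1
  have f4' : ((pos n B N 0 0 + 1, 0) : ℤ × ℤ) ∈ A := by
    have := f4
    simp only at this
    rw [e0] at this
    exact this
  have hgr : ∀ i : ℕ, ((pos n B N 0 0 + i, 0) : ℤ × ℤ) ∈ A ∧
      ((pos n B N 0 0 + (i + 1 : ℕ), 0) : ℤ × ℤ) ∈ A := by
    intro i
    induction i with
    | zero => exact ⟨by simpa using f1, by simpa using f4'⟩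
    | succ i ih =>
      refine ⟨ih.2, ?_⟩
      refine hcl growR (by simp [fam0]) _ ?_
      intro v hv
      simp only [growR, List.mem_cons, List.not_mem_nil, or_false] at hv
      rcases hv with rfl | rfl | rfl
      · exact hhalf _ (by simp)
      · have := ih.2
        rw [Prod.mk_add_mk]
        have e : pos n B N 0 0 + ((i + 1 + 1 : ℕ) : ℤ) + -1 = pos n B N 0 0 + (i + 1 : ℕ) := by
          push_cast; ring
        rw [e, add_zero]
        exact this
      · have := ih.1
        rw [Prod.mk_add_mk]
        have e : pos n B N 0 0 + ((i + 1 + 1 : ℕ) : ℤ) + -2 = pos n B N 0 0 + i := by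
          push_cast; ring
        rw [e, add_zero]
        exact this
  refine Set.infinite_of_injective_forall_mem (f := fun i : ℕ =>
    ((pos n B N 0 0 + i, 0) : ℤ × ℤ)) ?_ ?_
  · intro i j h
    simp only [Prod.mk.injEq, and_true] at h
    omega
  · intro i
    exact ⟨(hgr i).1, by simp⟩

/-- The facts of a halting run with short stacks are finitely many. -/
theorem finite_DF [Finite C] [Finite K] [Finite G] {N : ℕ} (hN : run op x₀ N = none)
    (hB : ∀ n x, run op x₀ n = some x → ∀ k, (x.2 k).length ≤ B) :
    {q : ℤ × ℤ × Option (Ty C K G) | DF op x₀ q.1 q.2.1 q.2.2}.Finite := by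
  refine Set.Finite.subset (s := (Set.Icc (0 : ℤ) N) ×ˢ ((Set.Icc (0 : ℤ) B) ×ˢ
    (Set.univ : Set (Option (Ty C K G))))) ?_ ?_
  · exact (Set.finite_Icc _ _).prod ((Set.finite_Icc _ _).prod Set.finite_univ)
  · rintro ⟨t, j, τ⟩ ⟨n', m, x, ht, hj, hx, hf⟩
    simp only at ht hj hf
    have h1 := fact_le (hB n' x hx) hf
    have h2 : n' < N := by
      by_contra hcon
      rw [run_none hN (by omega)] at hx
      cases hx
    simp only [Set.mem_prod, Set.mem_Icc, Set.mem_univ, and_true]
    omega

/-- If the machine does not accept, no single site suffices. -/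
theorem reject [Finite C] [Finite K] [Finite G] (hlt : ∀ y, idx y < n)
    (hinj : Function.Injective idx) (hn : 0 < n) (hrl : ∀ r, r ∈ rl → IsRule op ac kf sf r)
    (hinit : IsInit n B idx op x₀ init) {N : ℕ} (hN : run op x₀ N = none)
    (hB : ∀ n x, run op x₀ n = some x → ∀ k, (x.2 k).length ≤ B)
    (hacc : ¬ Acc op ac kf sf x₀) {Z : Set (ℤ × ℤ)} (hZ : Disjoint Z {x | x.2 < 0})
    (hc : Z.encard ≤ 1) :
    (cl (norm (fam0 (rl.map (offs n B idx)) init)) ({x | x.2 < 0} ∪ Z) \
      {x | x.2 < 0}).Finite := by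
  have hsh : Shape (norm (fam0 (rl.map (offs n B idx)) init)) := shape_main hrl
  rcases Set.encard_le_one_iff_eq.1 hc with rfl | ⟨z, rfl⟩
  · rw [Set.union_empty]
    have h1 := closed_half_top hsh
    rw [half_top] at h1
    rw [cl_eq_self.2 h1, Set.sdiff_self]
    exact Set.finite_empty
  · have hz : 0 ≤ z.2 := by
      have := Set.disjoint_left.1 hZ (Set.mem_singleton z)
      simpa using this
    -- the closed set
    set F : Set (ℤ × ℤ) := {x | z.2 = 1 ∧ x.2 = 0 ∧ ∃ t j τ, DF op x₀ t j τ ∧
      x.1 = z.1 + pos n B t j (code n idx τ)} with hF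
    have hFfin : F.Finite := by
      refine Set.Finite.subset ((finite_DF hN hB).image fun q =>
        ((z.1 + pos n B q.1 q.2.1 (code n idx q.2.2), 0) : ℤ × ℤ)) ?_
      rintro x ⟨_, h2, t, j, τ, h3, h4⟩
      exact ⟨(t, j, τ), h3, Prod.ext h4.symm h2.symm⟩
    have hF3 : ∀ x ∈ F, (3 : ℤ) ∣ x.1 - z.1 := by
      rintro x ⟨_, h2, t, j, τ, h3, h4⟩
      rw [h4, add_sub_cancel_left]
      exact three_dvd_pos (three_dvd_code n idx τ)
    set W : Set (ℤ × ℤ) := {x | x.2 < 0} ∪ {z} ∪ F with hW
    have hWcl : ClosedU (norm (fam0 (rl.map (offs n B idx)) init)) W := by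
      rw [closedU_norm]
      intro R hR x hx
      by_cases hx0 : x.2 < 0
      · exact Or.inl (Or.inl hx0)
      have hx0 : 0 ≤ x.2 := by omega
      -- two sites in the row of `x`, at most two steps apart or not
      have two : ∀ o o' : ℤ, o ≠ o' → x + (o, 0) ∈ W → x + (o', 0) ∈ W →
          x + (o, 0) ∈ F ∨ x + (o', 0) ∈ F := by
        intro o o' hoo h1 h2
        rcases h1 with (h1 | h1) | h1
        · exfalso
          have : (x + (o, 0)).2 < 0 := h1
          simp at this
          omega
        · rcases h2 with (h2 | h2) | h2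
          · exfalso
            have : (x + (o', 0)).2 < 0 := h2
            simp at this
            omega
          · exfalso
            have h3 : x + (o, 0) = x + (o', 0) := by
              rw [Set.mem_singleton_iff] at h1 h2
              rw [h1, h2]
            have h4 := congrArg Prod.fst (add_left_cancel h3)
            exact hoo h4
          · exact Or.inr h2
        · exact Or.inl h1
      have inF : ∀ o : ℤ, x.2 = 0 → z.2 = 1 → x + (o, 0) ∈ W → x + (o, 0) ∈ F := by
        intro o h0 h00 h1
        rcases h1 with (h1 | h1) | h1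
        · exfalso
          have : (x + (o, 0)).2 < 0 := h1
          simp at this
          omega
        · exfalso
          rw [Set.mem_singleton_iff] at h1
          have := congrArg Prod.snd h1
          simp at this
          omega
        · exact h1
      have zero_of : ∀ o : ℤ, x + (o, 0) ∈ F → x.2 = 0 ∧ z.2 = 1 := by
        rintro o ⟨h1, h2, _⟩
        simp at h2
        exact ⟨h2, h1⟩
      simp only [fam0, List.mem_cons, List.mem_append, List.mem_map] at hR
      rcases hR with rfl | rfl | ⟨l, ⟨r, hr, rfl⟩, rfl⟩ | ⟨a, ha, rfl⟩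
      · exfalso
        have h1 := hx (-1, 0) (by simp [growR])
        have h2 := hx (-2, 0) (by simp [growR])
        have h3 : x.2 = 0 ∧ z.2 = 1 := by
          rcases two (-1) (-2) (by norm_num) h1 h2 with h | h
          · exact zero_of _ h
          · exact zero_of _ h
        have h4 := hF3 _ (inF _ h3.1 h3.2 h1)
        have h5 := hF3 _ (inF _ h3.1 h3.2 h2)
        simp only [Prod.fst_add] at h4 h5
        omega
      · exfalso
        have h1 := hx (1, 0) (by simp [growL])
        have h2 := hx (2, 0) (by simp [growL])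
        have h3 : x.2 = 0 ∧ z.2 = 1 := by
          rcases two 1 2 (by norm_num) h1 h2 with h | h
          · exact zero_of _ h
          · exact zero_of _ h
        have h4 := hF3 _ (inF _ h3.1 h3.2 h1)
        have h5 := hF3 _ (inF _ h3.1 h3.2 h2)
        simp only [Prod.fst_add] at h4 h5
        omega
      · obtain ⟨o, ho, o', ho', hoo⟩ := two_offs (B := B) hlt hn (isRule_anchored (hrl r hr))
        have h1 := hx (o, 0) (List.mem_cons_of_mem _ (List.mem_map_of_mem ho))
        have h2 := hx (o', 0) (List.mem_cons_of_mem _ (List.mem_map_of_mem ho'))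
        have h3 : x.2 = 0 ∧ z.2 = 1 := by
          rcases two o o' hoo h1 h2 with h | h
          · exact zero_of _ h
          · exact zero_of _ h
        have h4 : ∀ o ∈ offs n B idx r, ∃ t j τ, DF op x₀ t j τ ∧
            (x.1 - z.1) + o = pos n B t j (code n idx τ) := by
          intro o ho
          obtain ⟨_, _, t, j, τ, h5, h6⟩ := inF o h3.1 h3.2
            (hx (o, 0) (List.mem_cons_of_mem _ (List.mem_map_of_mem ho)))
          refine ⟨t, j, τ, h5, ?_⟩
          simp only [Prod.fst_add] at h6
          linarith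
        obtain ⟨t, j, h5, h6⟩ := frame hlt hinj hn (D := DF op x₀) (B := B) (by
          rintro t j τ ⟨n', m, y, h7, h8, h9, h10⟩
          have := fact_le (hB n' y h9) h10
          omega) (isRule_anchored (hrl r hr)) h4
        have h7 := closed_DF (hrl r hr) h6
        cases hcc : r.concl with
        | none =>
          rw [hcc] at h7
          exact absurd h7 hacc
        | some τ =>
          rw [hcc] at h7 h5
          refine Or.inr ⟨h3.2, h3.1, t, j, τ, h7, ?_⟩
          have h8 : x.1 - z.1 = pos n B t j (code n idx τ) := h5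
          linarith
      · have h1 := hx (0, -1) (by simp [seedR])
        have h2 := hx (-a, 1) (by simp [seedR])
        have h3 : x + (-a, 1) = z := by
          rcases h2 with (h2 | h2) | h2
          · exfalso
            have : (x + (-a, 1)).2 < 0 := h2
            simp at this
            omega
          · exact h2
          · exfalso
            obtain ⟨_, h4, _⟩ := h2
            simp at h4
            omega
        have h4 : z.2 = x.2 + 1 := by rw [← h3]; rfl
        have h5 : z.1 = x.1 - a := by rw [← h3]; rfl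
        by_cases h6 : z.2 = 1
        · obtain ⟨m, τ, _, h7, h8⟩ := (hinit a).1 ha
          refine Or.inr ⟨h6, by omega, 0, m, τ, ⟨0, m, x₀, rfl, rfl, rfl, h7⟩, ?_⟩
          rw [← h8]
          linarith
        · exfalso
          rcases h1 with (h1 | h1) | h1
          · have : (x + (0, -1)).2 < 0 := h1
            simp at this
            omega
          · rw [Set.mem_singleton_iff] at h1
            have := congrArg Prod.snd h1
            simp at this
            omega
          · exact h6 h1.1
    refine Set.Finite.subset (hFfin.union (Set.finite_singleton z)) ?_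
    rintro x ⟨h1, h2⟩
    have h3 : x ∈ W := cl_min (fun y hy => Or.inl hy) hWcl h1
    rcases h3 with (h3 | h3) | h3
    · exact absurd h3 h2
    · exact Or.inr h3
    · exact Or.inl h3

/-- The difficulty of the family is at most `1` if and only if the machine accepts. -/
theorem diff_main [Finite C] [Finite K] [Finite G] (hlt : ∀ y, idx y < n)
    (hinj : Function.Injective idx) (hn : 0 < n) (hrl : ∀ r, r ∈ rl ↔ IsRule op ac kf sf r)
    (hinit : IsInit n B idx op x₀ init) {N : ℕ} (hN : run op x₀ N = none)
    (hB : ∀ n x, run op x₀ n = some x → ∀ k, (x.2 k).length ≤ B) :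
    diff (norm (fam0 (rl.map (offs n B idx)) init)) ≤ 1 ↔ Acc op ac kf sf x₀ := by
  rw [diff_le_one_iff (shape_main fun r hr => (hrl r).1 hr)]
  constructor
  · rintro ⟨Z, h1, h2, h3⟩
    by_contra hacc
    exact h2 (reject hlt hinj hn (fun r hr => (hrl r).1 hr) hinit hN hB hacc h1 h3)
  · intro h
    refine ⟨{(0, 1)}, ?_, accept (fun r hr => (hrl r).2 hr) hinit h, by simp⟩
    rw [Set.disjoint_singleton_left]
    simp

end

end Pool.Agent.U30.BP
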