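import Pool.Agent.U30.BP.FM
import Pool.Agent.H687R2.IntPoly

/-!
# The polynomial-time reduction
-/

namespace Pool.Agent.U30.BP

open Turing Pool.Agent.NPC Pool.Agent.H623R2.PS

section

variable {f : List Bool → Bool}
  (M : TM2Computable (id : List Bool → List Bool) (fun b : Bool => [b]) f)

/-- The kinds of facts. -/
abbrev TyM : Type := Ty (FC (sm M)) (sm M).K (FG (sm M))

instance : Finite (sm M).K := inferInstance

/-- The number of kinds of facts, plus one. -/
noncomputable def nM : ℕ := Nat.card (TyM M) + 1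

/-- The number of a kind of facts. -/
noncomputable def idxM (y : TyM M) : ℕ := (Finite.equivFin (TyM M) y).val

theorem idxM_lt (y : TyM M) : idxM M y < nM M := by
  have := (Finite.equivFin (TyM M) y).isLt
  unfold idxM nM
  omega

theorem idxM_inj : Function.Injective (idxM M) := fun _ _ h =>
  (Finite.equivFin (TyM M)).injective (Fin.ext h)

theorem nM_pos : 0 < nM M := Nat.succ_pos _

/-- The list of the rules of the machine. -/
noncomputable def rlM : List (ARule (TyM M)) :=
  (finite_isRule (fop (sm M)) (isHalt M) (kO M) (sO M)).toFinset.toList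

theorem mem_rlM (r : ARule (TyM M)) : r ∈ rlM M ↔ IsRule (fop (sm M)) (isHalt M) (kO M) (sO M) r := by
  unfold rlM
  rw [Finset.mem_toList, Set.Finite.mem_toFinset]
  rfl

/-- The input stack. -/
def kI : (sm M).K := M.tm.k₀

/-- The input symbols. -/
noncomputable def aG (b : Bool) : FG (sm M) :=
  ⟨⟨M.tm.k₀, M.inputAlphabet.invFun b⟩, mem_allG_in M.tm (oT M) _⟩

/-- The initial control. -/
noncomputable def c0M : FC (sm M) :=
  ⟨(some (M.tm.m M.tm.main), M.tm.initialState), (mem_allC_some M.tm _).2 (mem_allS_m M.tm _)⟩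

/-- The initial configuration. -/
noncomputable def y0 (x : List Bool) : FC (sm M) × ((sm M).K → List (FG (sm M))) :=
  (c0M M, Function.update (fun _ => []) (kI M) (x.map (aG M)))

theorem sim_y0 (x : List Bool) : Sim (sm M) (x0 M x) (y0 M x) := by
  refine ⟨rfl, fun k => ?_⟩
  unfold y0
  by_cases hk : k = kI M
  · subst hk
    simp only [Function.update_self]
    have h1 : (x0 M x).2 (kI M) = x.map M.inputAlphabet.invFun :=
      initList_self M.tm (x.map M.inputAlphabet.invFun)
    rw [h1, List.map_map]
    exact (List.map_map (l := x) (f := M.inputAlphabet.invFun)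
      (g := fun γ => (⟨kI M, γ⟩ : Σ k, (sm M).Γ k))).symm
  · simp only [Function.update_of_ne hk]
    have h1 : (x0 M x).2 k = [] := initList_ne M.tm (x.map M.inputAlphabet.invFun) hk
    rw [h1]
    rfl

/-- The code of a kind of facts, as a natural number. -/
noncomputable def cdn (y : TyM M) : ℕ := 3 * (nM M + idxM M y)

theorem code_eq (y : TyM M) : code (nM M) (idxM M) (some y) = (cdn M y : ℤ) := by
  simp only [code, cdn]
  push_cast
  ring

theorem pos_zero (B : ℕ) (m : ℕ) (c : ℕ) :
    pos (nM M) B 0 m c = ((m * (12 * nM M) + c : ℕ) : ℤ) := by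
  unfold pos
  push_cast
  ring

open Classical in
/-- The stacks other than the input stack. -/
noncomputable def KlM : List (sm M).K :=
  (Finset.univ : Finset (sm M).K).toList.filter fun k => decide (k ≠ kI M)

theorem mem_KlM (k : (sm M).K) : k ∈ KlM M ↔ k ≠ kI M := by
  unfold KlM
  simp

/-- The positions of the initial facts. -/
noncomputable def initM (x : List Bool) : List ℤ :=
  ((List.range (x.length + 1)).map fun j => ((j * (12 * nM M) + 0 : ℕ) : ℤ)) ++
  (((0 * (12 * nM M) + cdn M (.ctl (c0M M)) : ℕ) : ℤ) ::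
  (((KlM M).map fun k => ((0 * (12 * nM M) + cdn M (.cont k none) : ℕ) : ℤ)) ++
  (((x.length * (12 * nM M) + cdn M (.cont (kI M) none) : ℕ) : ℤ) ::
  (x.zipIdx.map fun p => ((p.2 * (12 * nM M) + (if p.1 = true then
    cdn M (.cont (kI M) (some (aG M true))) else cdn M (.cont (kI M) (some (aG M false)))) : ℕ) :
      ℤ)))))

theorem isInit_initM (B : ℕ) (x : List Bool) :
    IsInit (nM M) B (idxM M) (fop (sm M)) (y0 M x) (initM M x) := by
  intro a
  have e0 : code (nM M) (idxM M) none = ((0 : ℕ) : ℤ) := rfl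
  have hk0 : (y0 M x).2 (kI M) = x.map (aG M) := by simp [y0]
  have hk1 : ∀ k, k ≠ kI M → (y0 M x).2 k = [] := fun k hk => by simp [y0, hk]
  unfold initM
  simp only [List.mem_append, List.mem_cons, List.mem_map, List.mem_range]
  constructor
  · rintro (⟨j, hj, rfl⟩ | rfl | ⟨k, hk, rfl⟩ | rfl | ⟨p, hp, rfl⟩)
    · refine ⟨j, none, by simp, ⟨kI M, ?_⟩, ?_⟩
      · rw [hk0, List.length_map]; omega
      · rw [e0, pos_zero]
    · refine ⟨0, some (.ctl (c0M M)), by simp, ⟨rfl, rfl⟩, ?_⟩
      rw [code_eq, pos_zero]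
    · refine ⟨0, some (.cont k none), by simp, ?_, ?_⟩
      · show 0 = ((y0 M x).2 k).length
        rw [hk1 k ((mem_KlM M k).1 hk)]
        rfl
      · rw [code_eq, pos_zero]
    · refine ⟨x.length, some (.cont (kI M) none), by simp, ?_, ?_⟩
      · show x.length = ((y0 M x).2 (kI M)).length
        rw [hk0, List.length_map]
      · rw [code_eq, pos_zero]
    · obtain ⟨b, j⟩ := p
      have hb : x[j]? = some b := List.mem_zipIdx_iff_getElem?.1 hp
      refine ⟨j, some (.cont (kI M) (some (aG M b))), by simp, ?_, ?_⟩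
      · show ((y0 M x).2 (kI M))[j]? = some (aG M b)
        rw [hk0, List.getElem?_map, hb]
        rfl
      · rw [code_eq, pos_zero]
        cases b <;> simp
  · rintro ⟨m, τ, hno, hf, rfl⟩
    match τ, hno, hf with
    | none, _, ⟨k, hk⟩ =>
      left
      refine ⟨m, ?_, by rw [e0, pos_zero]⟩
      by_cases h : k = kI M
      · subst h
        rw [hk0, List.length_map] at hk
        omega
      · rw [hk1 k h] at hk
        simp only [List.length_nil] at hk
        omega
    | some (.ctl c), _, ⟨h1, h2⟩ =>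
      right; left
      subst h1 h2
      rw [code_eq, pos_zero]
      rfl
    | some (.cont k none), _, h =>
      have h' : m = ((y0 M x).2 k).length := h
      by_cases hk : k = kI M
      · subst hk
        right; right; right; left
        rw [hk0, List.length_map] at h'
        subst h'
        rw [code_eq, pos_zero]
      · right; right; left
        rw [hk1 k hk, List.length_nil] at h'
        subst h'
        exact ⟨k, (mem_KlM M k).2 hk, by rw [code_eq, pos_zero]⟩
    | some (.cont k (some s)), _, h =>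
      have h' : ((y0 M x).2 k)[m]? = some s := h
      by_cases hk : k = kI M
      · subst hk
        right; right; right; right
        rw [hk0, List.getElem?_map] at h'
        obtain ⟨b, hb, rfl⟩ := Option.map_eq_some_iff.1 h'
        refine ⟨(b, m), List.mem_zipIdx_iff_getElem?.2 hb, ?_⟩
        rw [code_eq, pos_zero]
        cases b <;> simp
      · rw [hk1 k hk] at h'
        simp at h'
    | some (.act c o), hno, _ => exact absurd rfl (hno c o)

/-- The family of an input. -/
noncomputable def famM (B : ℕ) (x : List Bool) : Family :=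
  norm (fam0 ((rlM M).map (offs (nM M) B (idxM M))) (initM M x))

theorem isFamily_famM (B : ℕ) (x : List Bool) : IsFamily (famM M B x) :=
  isFamily_main (idxM_lt M) (idxM_inj M) (nM_pos M) fun r hr => (mem_rlM M r).1 hr

theorem critical_famM (B : ℕ) (x : List Bool) : Critical (famM M B x) :=
  critical_shape (shape_main fun r hr => (mem_rlM M r).1 hr)

theorem diff_famM {P : ℕ} {x : List Bool}
    (hP : ∀ c : M.tm.Cfg, StateTransition.Reaches M.tm.step
      (initList M.tm (x.map M.inputAlphabet.invFun)) c → space c ≤ P) :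
    diff (famM M (P + maxDepth M.tm + 1) x) ≤ 1 ↔ f x = true := by
  obtain ⟨⟨N, hN⟩, hB, hacc⟩ := run_fm M hP (sim_y0 M x)
  rw [← hacc]
  exact diff_main (idxM_lt M) (idxM_inj M) (nM_pos M) (mem_rlM M)
    (isInit_initM M (P + maxDepth M.tm + 1) x) hN hB

end

/-! ### Computability -/

section

variable {α β γ : Type} [TEnc α] [TEnc β]

theorem poly_map_const (L : List γ) (F : γ → α → β) (hF : ∀ c, NPC.Poly (F c)) :
    NPC.Poly (fun x => L.map fun c => F c x) := by
  induction L with
  | nil => exact NPC.Poly.const []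
  | cons c L ih =>
    simp only [List.map_cons]
    exact NPC.Poly.cons (hF c) ih

theorem sz_sublist {l l' : List β} (h : l.Sublist l') : sz l ≤ sz l' := by
  induction h with
  | slnil => exact le_rfl
  | cons a _ ih => simp; omega
  | cons_cons a _ ih => simp; omega

/-- Removing repetitions. -/
theorem poly_dedup [DecidableEq β] {l : α → List β} (hl : NPC.Poly l) :
    NPC.Poly (fun a => (l a).dedup) := by
  obtain ⟨r, hr⟩ := hl.sz_le
  have key : ∀ l : List β, l.foldr (fun b acc => if b ∈ acc then acc else b :: acc) [] =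
      l.dedup := by
    intro l
    induction l with
    | nil => rfl
    | cons b l ih =>
      rw [List.foldr_cons, ih]
      by_cases h : b ∈ l
      · rw [if_pos (List.mem_dedup.2 h), List.dedup_cons_of_mem h]
      · rw [if_neg (fun h' => h (List.mem_dedup.1 h')), List.dedup_cons_of_notMem h]
  refine (NPC.Poly.foldr (l := l) (s := fun _ => ([] : List β))
    (F := fun _ b acc => if b ∈ acc then acc else b :: acc) hl (NPC.Poly.const _)
    (NPC.Poly.ite (NPC.Poly.decide_mem (NPC.Poly.fst (NPC.Poly.snd NPC.Poly.id))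
      (NPC.Poly.snd (NPC.Poly.snd NPC.Poly.id)))
      (NPC.Poly.snd (NPC.Poly.snd NPC.Poly.id))
      (NPC.Poly.cons (NPC.Poly.fst (NPC.Poly.snd NPC.Poly.id))
        (NPC.Poly.snd (NPC.Poly.snd NPC.Poly.id)))) r ?_).congr
    fun a => key (l a)
  intro a k _
  rw [key]
  exact (sz_sublist (List.dedup_sublist _)).trans ((NPC.Poly.sz_drop_le _ _).trans (hr a))

theorem poly_norm {U : α → Family} (hU : NPC.Poly U) : NPC.Poly (fun a => norm (U a)) := by
  unfold norm
  refine poly_dedup ?_
  refine NPC.Poly.map (F := fun _ l => List.dedup l) hU ?_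
  exact poly_dedup (NPC.Poly.snd NPC.Poly.id)

theorem poly_pos_sub (n : ℕ) {B : α → ℕ} (hB : NPC.Poly B) (a b c d : ℤ) :
    NPC.Poly (fun x => pos n (B x) a b c - d) := by
  unfold pos
  refine NPC.Poly.isub (NPC.Poly.iadd (NPC.Poly.iadd (NPC.Poly.imul (NPC.Poly.const _)
    (NPC.Poly.imul (NPC.Poly.iadd (NPC.Poly.natCast hB) (NPC.Poly.const _)) (NPC.Poly.const _)))
    (NPC.Poly.const _)) (NPC.Poly.const _)) (NPC.Poly.const _)

end

section

variable {f : List Bool → Bool}
  (M : TM2Computable (id : List Bool → List Bool) (fun b : Bool => [b]) f)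

theorem poly_initM : NPC.Poly (initM M) := by
  unfold initM
  have hx : NPC.Poly (fun x : List Bool => x) := NPC.Poly.id
  have hl : NPC.Poly (fun x : List Bool => x.length) := NPC.Poly.length hx
  refine NPC.Poly.append ?_ (NPC.Poly.cons (NPC.Poly.const _) (NPC.Poly.append (NPC.Poly.const _)
    (NPC.Poly.cons ?_ ?_)))
  · refine NPC.Poly.map (F := fun (_ : List Bool) (j : ℕ) => ((j * (12 * nM M) + 0 : ℕ) : ℤ))
      (UPoly.range (UPoly.add (UPoly.length hx) (UPoly.const 1))) ?_
    exact NPC.Poly.natCast (NPC.Poly.add (NPC.Poly.mul (NPC.Poly.snd NPC.Poly.id)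
      (NPC.Poly.const _)) (NPC.Poly.const _))
  · exact NPC.Poly.natCast (NPC.Poly.add (NPC.Poly.mul hl (NPC.Poly.const _)) (NPC.Poly.const _))
  · refine NPC.Poly.map (F := fun (_ : List Bool) (p : Bool × ℕ) =>
      ((p.2 * (12 * nM M) + (if p.1 = true then
        cdn M (.cont (kI M) (some (aG M true))) else
          cdn M (.cont (kI M) (some (aG M false)))) : ℕ) : ℤ)) (NPC.Poly.zipIdx hx) ?_
    refine NPC.Poly.natCast (NPC.Poly.add (NPC.Poly.mul (NPC.Poly.snd (NPC.Poly.snd NPC.Poly.id))
      (NPC.Poly.const _)) (NPC.Poly.ite (NPC.Poly.decide_eq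
        (NPC.Poly.fst (NPC.Poly.snd NPC.Poly.id)) (NPC.Poly.const _))
        (NPC.Poly.const _) (NPC.Poly.const _)))

theorem poly_famM {B : List Bool → ℕ} (hB : NPC.Poly B) :
    NPC.Poly (fun x => famM M (B x) x) := by
  unfold famM
  refine poly_norm ?_
  unfold fam0
  refine NPC.Poly.cons (NPC.Poly.const _) (NPC.Poly.cons (NPC.Poly.const _)
    (NPC.Poly.append ?_ ?_))
  · simp only [List.map_map]
    refine poly_map_const (rlM M) (fun r x => (rowR ∘ offs (nM M) (B x) (idxM M)) r) fun r => ?_
    show NPC.Poly (fun x => rowR (offs (nM M) (B x) (idxM M) r))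
    unfold rowR offs
    refine NPC.Poly.cons (NPC.Poly.const _) ?_
    simp only [List.map_map]
    exact poly_map_const r.prem (fun p x =>
      ((fun o : ℤ => (o, (0 : ℤ))) ∘ fun p : ℤ × ℤ × Option (TyM M) =>
        pos (nM M) (B x) p.1 p.2.1 (code (nM M) (idxM M) p.2.2) -
          ccode (nM M) (idxM M) r.concl) p) fun p =>
      NPC.Poly.pair (poly_pos_sub _ hB _ _ _ _) (NPC.Poly.const _)
  · refine NPC.Poly.map (F := fun _ a => seedR a) (poly_initM M) ?_
    unfold seedR
    exact NPC.Poly.cons (NPC.Poly.const _) (NPC.Poly.cons (NPC.Poly.pair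
      (NPC.Poly.ineg (NPC.Poly.snd NPC.Poly.id)) (NPC.Poly.const _)) (NPC.Poly.const _))

end

/-- Every language in `EXPSPACE` reduces in polynomial time to the question whether the difficulty
of a critical update family is at most `1`. -/
theorem exists_red {L : Set (List Bool)} (hL : InEXPSPACE L) :
    ∃ U : List Bool → Family, NPC.Poly U ∧ (∀ x, IsFamily (U x)) ∧ (∀ x, Critical (U x)) ∧
      ∀ x, x ∈ L ↔ diff (U x) ≤ 1 := by
  obtain ⟨f, M, p, hf, hp⟩ := hL
  refine ⟨fun x => famM M (2 ^ p.eval x.length + maxDepth M.tm + 1) x, poly_famM M ?_,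
    fun x => isFamily_famM M _ x, fun x => critical_famM M _ x, fun x => ?_⟩
  · exact NPC.Poly.add (NPC.Poly.add (NPC.Poly.npow (NPC.Poly.const 2)
      (UPoly.eval (UPoly.length NPC.Poly.id) p)) (NPC.Poly.const _)) (NPC.Poly.const 1)
  · rw [hf, diff_famM M (hp x)]

end Pool.Agent.U30.BP
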