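import Pool.Agent.U30.BP.Fast
import Pool.Agent.U30.BP.ES

/-!
# `EXPTIME` is contained in `EXPSPACE`
-/

namespace Pool.Agent.U30.BP

open Turing Pool.Agent.NPC Pool.Agent.H820R2.SS Pool.Agent.H623R2.PS

theorem expspace_of_exptime {L : Set (List Bool)} (hL : InEXPTIME L) : InEXPSPACE L := by
  obtain ⟨V, M, p, hp, hV⟩ := hL
  obtain ⟨prog, P, hprog⟩ := sim_general M.tm M.inputAlphabet M.outputAlphabet
  obtain ⟨c3, P3, hc3⟩ : PC (fun x : List Bool => x) (fun x : List Bool => x)
      (fun z => [decide (z = [true])]) :=
    PC.comp (g := fun z : List Bool => [decide (z = [true])]) (f := fun x => x)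
      (PC.comp (g := fun b => [b]) (f := fun z : List Bool => decide (z = [true])) PC.rawBool
        (NPC.Poly.decide_eq NPC.Poly.id (NPC.Poly.const [true]))) PC.rawIn
  have hrun : ∀ x : List Bool, Runs prog (inp x) (inp (V x))
      (P.eval (x.length + 2 ^ p.eval x.length)) := by
    intro x
    have h := M.outputsFun x
    obtain ⟨⟨n', hn'⟩, hle⟩ := h
    refine (hprog x (V x) n' hn').mono (eval_mono P ?_)
    have h1 : n' ≤ M.time x.length := hle
    have h2 := hp x.length
    omega
  have hlen : ∀ x : List Bool, (V x).length ≤ x.length +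
      P.eval (x.length + 2 ^ p.eval x.length) := by
    intro x
    obtain ⟨t, ht, hr⟩ := hrun x
    have := hr.length_le 0
    simp only [inp, Function.update_self] at this
    omega
  set cc : Cmd ℕ := Cmd.seq prog c3 with hcc
  have hall : ∀ x : List Bool, Runs cc (inp x) (inp [decide (V x = [true])])
      (P.eval (x.length + 2 ^ p.eval x.length) +
        P3.eval (x.length + P.eval (x.length + 2 ^ p.eval x.length))) := by
    intro x
    have h3 : Runs c3 (inp (V x)) (inp [decide (V x = [true])]) (P3.eval (V x).length) :=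
      hc3 (V x)
    exact ((hrun x).seq h3).mono (Nat.add_le_add_left (eval_mono P3 (hlen x)) _)
  obtain ⟨r, hr⟩ := exists_exp_bound (Polynomial.C (cc.bd + 1) * (Polynomial.X +
    (P.comp (Polynomial.C 2 * Polynomial.X) + P3.comp (Polynomial.X +
      P.comp (Polynomial.C 2 * Polynomial.X))))) (p + Polynomial.X)
  refine inEXPSPACE_of_runS (f := fun x => decide (V x = [true])) ?_ cc
    (fun x => x.length + (P.eval (x.length + 2 ^ p.eval x.length) +
        P3.eval (x.length + P.eval (x.length + 2 ^ p.eval x.length)))) ?_ r ?_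
  · intro x
    rw [hV x, decide_eq_true_eq]
  · intro x
    refine RunS.of_runs (hall x) (L := x.length) ?_ le_rfl
    rw [inp_eq_st]
    exact bd_st le_rfl (by simp) (by simp)
  · intro x
    refine le_trans ?_ (hr x.length)
    simp only [Polynomial.eval_add, Polynomial.eval_mul, Polynomial.eval_C, Polynomial.eval_X,
      Polynomial.eval_comp]
    have e1 : x.length ≤ 2 ^ (p.eval x.length + x.length) :=
      Nat.lt_two_pow_self.le.trans (Nat.pow_le_pow_right (by norm_num) (by omega))
    have e2 : 2 ^ p.eval x.length ≤ 2 ^ (p.eval x.length + x.length) :=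
      Nat.pow_le_pow_right (by norm_num) (by omega)
    have e3 : P.eval (x.length + 2 ^ p.eval x.length) ≤
        P.eval (2 * 2 ^ (p.eval x.length + x.length)) := eval_mono P (by omega)
    have e4 : P3.eval (x.length + P.eval (x.length + 2 ^ p.eval x.length)) ≤
        P3.eval (2 ^ (p.eval x.length + x.length) +
          P.eval (2 * 2 ^ (p.eval x.length + x.length))) := eval_mono P3 (by omega)
    exact Nat.mul_le_mul_left _ (by omega)

end Pool.Agent.U30.BP
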